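import Mathlib

set_option autoImplicit false
open Set Filter MeasureTheory Topology
open scoped Pointwise

namespace Pool.Agent.R361.Dif

section defs

variable {X : Type*} [NormedAddCommGroup X]

/-- `(Δ_a f)(t) = f (t + a) - f t` -/
def Diff (a : ℝ) (f : ℝ → X) (t : ℝ) : X := f (t + a) - f t

/-- `u` is bounded and uniformly continuous on `J` -/
def BUC (J : Set ℝ) (u : ℝ → X) : Prop := UniformContinuousOn u J ∧ ∃ C : ℝ, ∀ t ∈ J, ‖u t‖ ≤ C

/-- `f` is Bochner integrable on every compact subinterval of `J` -/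
def L1loc (J : Set ℝ) (f : ℝ → X) : Prop :=
  ∀ a ∈ J, ∀ b ∈ J, IntegrableOn f (Icc a b) volume

/-- `(M_h f)(t) = (1/h) ∫_t^{t+h} f(s) ds` -/
noncomputable def Avg [NormedSpace ℝ X] (h : ℝ) (f : ℝ → X) (t : ℝ) : X :=
  h⁻¹ • ∫ s in t..(t + h), f s

end defs

variable {X : Type*} [NormedAddCommGroup X]

lemma Diff_split (f : ℝ → X) (s t : ℝ) :
    Diff s f t = -Diff 1 f (t + s) + Diff s f (t + 1) + Diff 1 f t := by
  have e : t + s + 1 = t + 1 + s := by ring
  simp only [Diff, e]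
  abel

lemma Diff_telescope (f : ℝ → X) (r t : ℝ) (m : ℕ) :
    Diff (m * r) f t = ∑ j ∈ Finset.range m, Diff r f (t + j * r) := by
  induction m with
  | zero => simp [Diff]
  | succ m ih =>
    rw [Finset.sum_range_succ, ← ih]
    simp only [Diff]
    have e : t + m * r + r = t + ((m + 1 : ℕ) : ℝ) * r := by push_cast; ring
    rw [e]
    abel

/-- Uniform boundedness of differences, general form: bounds on `B` give bounds on `A`. -/
lemma UBgen {ι : Type*} [Countable ι] (H : ι → ℝ → X) {J : Set ℝ} (hJ : IsUpperSet J)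
    (hm : ∀ i, L1loc J (H i)) {A B : Set ℝ} (hBJ : B ⊆ J)
    (hc : ∀ s > 0, ∀ i, ContinuousOn (Diff s (H i)) B)
    (hb : ∀ s > 0, ∃ C : ℝ, ∀ i, ∀ t ∈ B, ‖Diff s (H i) t‖ ≤ C) (h : ℝ) (hh : 0 ≤ h)
    (hAB : ∀ t ∈ A, Icc t (t + h + 1) ⊆ B) :
    ∃ C : ℝ, ∀ s, 0 ≤ s → s ≤ h → ∀ i, ∀ t ∈ A, ‖Diff s (H i) t‖ ≤ C := by
  obtain ⟨D, hD1, hD2, hD3⟩ : ∃ D ⊆ B, D.Countable ∧ B ⊆ closure D :=
    (TopologicalSpace.IsSeparable.of_separableSpace B).exists_countable_dense_subset
  set μ : Measure ℝ := volume.restrict (Ioo 0 1) with hμ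
  let S : ℕ → Set ℝ := fun n => ⋂ i : ι, ⋂ t ∈ D, {s | ‖Diff s (H i) t‖ ≤ n}
  have hS : ∀ n, NullMeasurableSet (S n) μ := by
    intro n
    refine NullMeasurableSet.iInter fun i => NullMeasurableSet.biInter hD2 fun t ht => ?_
    have h1 : IntegrableOn (H i) (Icc t (t + 1)) volume :=
      hm i t (hBJ (hD1 ht)) (t + 1) (hJ (by linarith) (hBJ (hD1 ht)))
    have h2 : AEStronglyMeasurable (fun s => H i (t + s)) μ := by
      have h3 : AEStronglyMeasurable (H i) (volume.restrict (Icc t (t + 1))) :=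
        h1.aestronglyMeasurable
      have h4 : MeasurePreserving (fun s : ℝ => t + s) (volume.restrict (Icc 0 1))
          (volume.restrict (Icc t (t + 1))) := by
        have := (measurePreserving_add_left (volume : Measure ℝ) t).restrict_preimage
          (s := Icc t (t + 1)) measurableSet_Icc
        have e : (fun s : ℝ => t + s) ⁻¹' (Icc t (t + 1)) = Icc 0 1 := by
          ext s; simp
        rwa [e] at this
      exact (h3.comp_measurePreserving h4).mono_measure
        (Measure.restrict_mono Ioo_subset_Icc_self le_rfl)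
    have h5 : AEStronglyMeasurable (fun s => Diff s (H i) t) μ :=
      h2.sub aestronglyMeasurable_const
    exact h5.norm.aemeasurable.nullMeasurable measurableSet_Iic
  have hU : μ (⋃ n, S n) ≠ 0 := by
    have h1 : Ioo (0:ℝ) 1 ⊆ ⋃ n, S n := by
      intro s hs
      obtain ⟨C, hC⟩ := hb s hs.1
      obtain ⟨n, hn⟩ := exists_nat_ge C
      refine mem_iUnion.2 ⟨n, ?_⟩
      simp only [S, mem_iInter, mem_ofPred_eq]
      exact fun i t ht => (hC i t (hD1 ht)).trans hn
    have h2 : μ (Ioo 0 1) ≤ μ (⋃ n, S n) := measure_mono h1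
    have h3 : μ (Ioo 0 1) = 1 := by
      rw [hμ, Measure.restrict_apply measurableSet_Ioo, inter_self, Real.volume_Ioo]
      simp
    intro h0
    rw [h0, h3] at h2
    simp at h2
  obtain ⟨n, hn⟩ := exists_measure_pos_of_not_measure_iUnion_null hU
  obtain ⟨E, hE1, hE2, hE3⟩ := (hS n).exists_measurable_subset_ae_eq
  have hE4 : 0 < volume (E ∩ Ioo 0 1) := by
    have : μ E = volume (E ∩ Ioo 0 1) := by
      rw [hμ, Measure.restrict_apply hE2]
    rw [← this, measure_congr hE3]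
    exact hn
  have hst := Measure.sub_mem_nhds_zero_of_addHaar_pos (volume : Measure ℝ) (E ∩ Ioo 0 1)
    (hE2.inter measurableSet_Ioo) hE4
  obtain ⟨κ, hκ, hκ'⟩ := Metric.mem_nhds_iff.1 hst
  have key : ∀ s ∈ E ∩ Ioo 0 1, ∀ i, ∀ t ∈ B, ‖Diff s (H i) t‖ ≤ n := by
    intro s hs i t ht
    have h1 : ∀ t ∈ D, ‖Diff s (H i) t‖ ≤ n := by
      intro t ht
      have := hE1 hs.1
      simp only [S, mem_iInter, mem_ofPred_eq] at this
      exact this i t ht
    have h2 : ContinuousWithinAt (fun t => ‖Diff s (H i) t‖) D t :=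
      ((hc s hs.2.1 i t ht).mono hD1).norm
    exact ContinuousWithinAt.closure_le (hD3 ht) h2 continuousWithinAt_const h1
  have key2 : ∀ s, 0 < s → s < κ → ∀ i, ∀ t, Icc (t - 1) t ⊆ B → ‖Diff s (H i) t‖ ≤ 2 * n := by
    intro s hs0 hs1 i t ht
    have h1 : s ∈ E ∩ Ioo 0 1 - E ∩ Ioo 0 1 := hκ' (by
      rw [Metric.mem_ball, dist_zero_right, Real.norm_eq_abs, abs_of_pos hs0]; exact hs1)
    obtain ⟨s2, hs2, s1, hs1', rfl⟩ := mem_sub.1 h1
    have e : Diff (s2 - s1) (H i) t = Diff s2 (H i) (t - s1) - Diff s1 (H i) (t - s1) := by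
      simp only [Diff]
      have e1 : t - s1 + s2 = t + (s2 - s1) := by ring
      have e2 : t - s1 + s1 = t := by ring
      rw [e1, e2]; abel
    have ht' : t - s1 ∈ B := ht ⟨by have := hs1'.2.2; linarith, by have := hs1'.2.1; linarith⟩
    rw [e]
    calc ‖Diff s2 (H i) (t - s1) - Diff s1 (H i) (t - s1)‖
        ≤ ‖Diff s2 (H i) (t - s1)‖ + ‖Diff s1 (H i) (t - s1)‖ := norm_sub_le _ _
      _ ≤ n + n := add_le_add (key s2 hs2 i _ ht') (key s1 hs1' i _ ht')
      _ = 2 * n := by ring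
  obtain ⟨m, hm'⟩ := exists_nat_gt (|h| / κ)
  have hm0 : (0:ℝ) < m := lt_of_le_of_lt (by positivity) hm'
  have key3 : ∀ s, 0 ≤ s → s ≤ h → ∀ i, ∀ t, Icc (t - 1) (t + s) ⊆ B →
      ‖Diff s (H i) t‖ ≤ m * (2 * n) := by
    intro s hs0 hs1 i t ht
    rcases hs0.eq_or_lt with h0 | h0
    · rw [← h0]; simp only [Diff, add_zero, sub_self, norm_zero]; positivity
    have e : s = m * (s / m) := by field_simp
    rw [e, Diff_telescope]
    have hsm : s / m < κ := by
      rw [div_lt_iff₀ hκ] at hm'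
      rw [div_lt_iff₀ hm0]
      calc s ≤ |h| := hs1.trans (le_abs_self h)
        _ < m * κ := hm'
        _ = κ * m := by ring
    calc ‖∑ j ∈ Finset.range m, Diff (s / m) (H i) (t + j * (s / m))‖
        ≤ ∑ j ∈ Finset.range m, ‖Diff (s / m) (H i) (t + j * (s / m))‖ := norm_sum_le _ _
      _ ≤ ∑ j ∈ Finset.range m, (2 * n : ℝ) := by
        apply Finset.sum_le_sum
        intro j hj
        apply key2 _ (by positivity) hsm
        refine subset_trans (Icc_subset_Icc ?_ ?_) ht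
        · have : 0 ≤ (j : ℝ) * (s / m) := by positivity
          linarith
        · have hjm : (j : ℝ) ≤ m := by exact_mod_cast (Finset.mem_range.1 hj).le
          have : (j : ℝ) * (s / m) ≤ m * (s / m) := mul_le_mul_of_nonneg_right hjm (by positivity)
          rw [← e] at this
          linarith
      _ = m * (2 * n) := by simp
  obtain ⟨C1, hC1⟩ := hb 1 one_pos
  refine ⟨|C1| + m * (2 * n) + |C1|, fun s hs0 hs1 i t ht => ?_⟩
  rw [Diff_split]
  calc ‖-Diff 1 (H i) (t + s) + Diff s (H i) (t + 1) + Diff 1 (H i) t‖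
      ≤ ‖-Diff 1 (H i) (t + s)‖ + ‖Diff s (H i) (t + 1)‖ + ‖Diff 1 (H i) t‖ := norm_add₃_le
    _ ≤ |C1| + m * (2 * n) + |C1| := by
      rw [norm_neg]
      refine add_le_add (add_le_add ?_ ?_) ?_
      · exact (hC1 i _ (hAB t ht ⟨by linarith, by linarith⟩)).trans (le_abs_self _)
      · refine key3 s hs0 hs1 i _ (subset_trans (Icc_subset_Icc ?_ ?_) (hAB t ht)) <;> linarith
      · exact (hC1 i _ (hAB t ht ⟨le_rfl, by linarith⟩)).trans (le_abs_self _)

/-- Uniform boundedness of differences. -/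
lemma UB {ι : Type*} [Countable ι] (H : ι → ℝ → X) {J : Set ℝ} (hJ : IsUpperSet J)
    (hm : ∀ i, L1loc J (H i)) (hc : ∀ s > 0, ∀ i, ContinuousOn (Diff s (H i)) J)
    (hb : ∀ s > 0, ∃ C : ℝ, ∀ i, ∀ t ∈ J, ‖Diff s (H i) t‖ ≤ C) (h : ℝ) :
    ∃ C : ℝ, ∀ s, 0 ≤ s → s ≤ h → ∀ i, ∀ t ∈ J, ‖Diff s (H i) t‖ ≤ C := by
  obtain ⟨C, hC⟩ := UBgen H hJ hm subset_rfl hc hb |h| (abs_nonneg h)
    (fun t ht r hr => hJ hr.1 ht)
  exact ⟨C, fun s h0 h1 => hC s h0 (h1.trans (le_abs_self h))⟩

/-- Local version. -/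
lemma UBloc (f : ℝ → X) {J : Set ℝ} (hJ : IsUpperSet J)
    (hm : L1loc J f) (hc : ∀ s > 0, ContinuousOn (Diff s f) J)
    (hb : ∀ s > 0, ∀ R : ℝ, ∃ C : ℝ, ∀ t ∈ J, |t| ≤ R → ‖Diff s f t‖ ≤ C) (h R : ℝ) :
    ∃ C : ℝ, ∀ s, 0 ≤ s → s ≤ h → ∀ t ∈ J, |t| ≤ R → ‖Diff s f t‖ ≤ C := by
  obtain ⟨C, hC⟩ := UBgen (fun _ : Unit => f) hJ (fun _ => hm)
    (A := {t | t ∈ J ∧ |t| ≤ R}) (B := {t | t ∈ J ∧ |t| ≤ R + |h| + 1}) (fun t ht => ht.1)
    (fun s hs _ => (hc s hs).mono fun t ht => ht.1)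
    (fun s hs => by
      obtain ⟨C, hC⟩ := hb s hs (R + |h| + 1)
      exact ⟨C, fun _ t ht => hC t ht.1 ht.2⟩) |h| (abs_nonneg h)
    (fun t ht r hr => by
      refine ⟨hJ hr.1 ht.1, ?_⟩
      have h1 := abs_le.1 ht.2
      have := abs_nonneg h
      exact abs_le.2 ⟨by linarith [hr.1], by linarith [hr.2]⟩)
  exact ⟨C, fun s h0 h1 t ht htR => hC s h0 (h1.trans (le_abs_self h)) () t ⟨ht, htR⟩⟩

/-- local boundedness from boundedness of differences -/
lemma locally_bounded {f : ℝ → X} {J : Set ℝ} (hne : J.Nonempty)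
    (hb : ∀ h R : ℝ, ∃ C : ℝ, ∀ s, 0 ≤ s → s ≤ h → ∀ t ∈ J, |t| ≤ R → ‖Diff s f t‖ ≤ C) (R : ℝ) :
    ∃ B : ℝ, 0 ≤ B ∧ ∀ t ∈ J, |t| ≤ R → ‖f t‖ ≤ B := by
  obtain ⟨t0, ht0⟩ := hne
  obtain ⟨C, hC⟩ := hb (R + |t0|) (max R |t0|)
  refine ⟨‖f t0‖ + |C|, by positivity, fun t ht htR => ?_⟩
  have h1 := abs_le.1 htR
  have h2 := abs_le.1 (le_refl |t0|)
  rcases le_total t0 t with h | h
  · have h3 := hC (t - t0) (by linarith) (by linarith) t0 ht0 (le_max_right _ _)
    have e : f t = f t0 + Diff (t - t0) f t0 := by simp [Diff]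
    rw [e]
    exact (norm_add_le _ _).trans (add_le_add le_rfl (h3.trans (le_abs_self _)))
  · have h3 := hC (t0 - t) (by linarith) (by linarith) t ht (htR.trans (le_max_left _ _))
    have e : f t = f t0 - Diff (t0 - t) f t := by simp [Diff]
    rw [e]
    exact (norm_sub_le _ _).trans (add_le_add le_rfl (h3.trans (le_abs_self _)))

lemma L1loc.intervalIntegrable {f : ℝ → X} {J : Set ℝ} (hf : L1loc J f) {a b : ℝ} (ha : a ∈ J)
    (hb : b ∈ J) : IntervalIntegrable f volume a b := by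
  rw [intervalIntegrable_iff']
  rcases le_total a b with h | h
  · rw [uIcc_of_le h]; exact hf a ha b hb
  · rw [uIcc_of_ge h]; exact hf b hb a ha

/-- Uniform continuity on bounded parts. -/
lemma uc_of_diff [NormedSpace ℝ X] [CompleteSpace X] {f : ℝ → X} {J : Set ℝ} (hJ : IsUpperSet J) (hne : J.Nonempty)
    (hL : L1loc J f)
    (hb : ∀ h R : ℝ, ∃ C : ℝ, ∀ s, 0 ≤ s → s ≤ h → ∀ t ∈ J, |t| ≤ R → ‖Diff s f t‖ ≤ C)
    (hu : ∀ a > 0, ∀ R, UniformContinuousOn (Diff a f) (J ∩ Icc (-R) R)) (R : ℝ) :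
    UniformContinuousOn f (J ∩ Icc (-R) R) := by
  by_contra hcon
  rw [Metric.uniformContinuousOn_iff] at hcon
  push Not at hcon
  obtain ⟨ε, hε, hcon⟩ := hcon
  have h1 : ∀ k : ℕ, ∃ x ∈ J ∩ Icc (-R) R, ∃ y ∈ J ∩ Icc (-R) R, x < y ∧
      y - x < 1 / ((k : ℝ) + 1) ∧ ε ≤ ‖f y - f x‖ := by
    intro k
    obtain ⟨x, hx, y, hy, hxy, he⟩ := hcon (1 / ((k : ℝ) + 1)) (by positivity)
    rcases lt_trichotomy x y with h | h | h
    · refine ⟨x, hx, y, hy, h, ?_, ?_⟩
      · rw [dist_comm, Real.dist_eq, abs_of_pos (by linarith)] at hxy; exact hxy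
      · rwa [dist_comm, dist_eq_norm] at he
    · rw [h] at he; simp at he; linarith
    · refine ⟨y, hy, x, hx, h, ?_, ?_⟩
      · rw [Real.dist_eq, abs_of_pos (by linarith)] at hxy; exact hxy
      · rwa [dist_eq_norm] at he
  choose x hx y hy hxy hd he using h1
  obtain ⟨B, hB0, hB⟩ := locally_bounded hne hb (|R| + 1)
  obtain ⟨C, hC⟩ := hb 1 R
  -- the averages
  have hdist : Tendsto (fun k => dist (x k) (y k)) atTop (𝓝 0) := by
    refine squeeze_zero (fun k => dist_nonneg) (fun k => ?_) tendsto_one_div_add_atTop_nhds_zero_nat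
    rw [dist_comm, Real.dist_eq, abs_of_pos (by linarith [hxy k])]
    exact (hd k).le
  have hI : Tendsto (fun k => ∫ s in Ioc (0:ℝ) 1, (Diff s f (y k) - Diff s f (x k))) atTop
      (𝓝 (∫ s in Ioc (0:ℝ) 1, (0 : X))) := by
    refine tendsto_integral_of_dominated_convergence (fun _ => 2 * C) ?_ ?_ ?_ ?_
    · intro k
      have h2 : ∀ z ∈ J, AEStronglyMeasurable (fun s => Diff s f z) (volume.restrict (Ioc (0:ℝ) 1)) := by
        intro z hz
        have h3 : IntervalIntegrable f volume z (z + 1) :=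
          hL.intervalIntegrable hz (hJ (by linarith) hz)
        have h4 := h3.comp_add_left z
        simp only [sub_self, add_sub_cancel_left] at h4
        exact (h4.1.aestronglyMeasurable).sub aestronglyMeasurable_const
      exact (h2 _ (hy k).1).sub (h2 _ (hx k).1)
    · exact integrable_const _
    · intro k
      refine (ae_restrict_iff' measurableSet_Ioc).2 (Eventually.of_forall fun s hs => ?_)
      calc ‖Diff s f (y k) - Diff s f (x k)‖ ≤ ‖Diff s f (y k)‖ + ‖Diff s f (x k)‖ := norm_sub_le _ _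
        _ ≤ C + C := add_le_add (hC s hs.1.le hs.2 _ (hy k).1 (abs_le.2 (hy k).2))
            (hC s hs.1.le hs.2 _ (hx k).1 (abs_le.2 (hx k).2))
        _ = 2 * C := by ring
    · refine (ae_restrict_iff' measurableSet_Ioc).2 (Eventually.of_forall fun s hs => ?_)
      have h3 := hu s hs.1 R
      rw [Metric.uniformContinuousOn_iff] at h3
      rw [Metric.tendsto_atTop]
      intro η hη
      obtain ⟨δ, hδ, h4⟩ := h3 η hη
      obtain ⟨N, hN⟩ := (Metric.tendsto_atTop.1 hdist) δ hδ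
      refine ⟨N, fun k hk => ?_⟩
      have h5 := hN k hk
      rw [Real.dist_eq, sub_zero, abs_of_nonneg dist_nonneg] at h5
      have h6 := h4 _ (hx k) _ (hy k) h5
      rw [dist_zero_right, ← dist_eq_norm, dist_comm]
      exact h6
  simp only [integral_zero] at hI
  have hval : ∀ k, ∫ s in Ioc (0:ℝ) 1, (Diff s f (y k) - Diff s f (x k)) =
      (∫ s in (x k + 1)..(y k + 1), f s) - (∫ s in (x k)..(y k), f s) - (f (y k) - f (x k)) := by
    intro k
    have hxJ := (hx k).1
    have hyJ := (hy k).1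
    have hxJ1 : x k + 1 ∈ J := hJ (by linarith) hxJ
    have hyJ1 : y k + 1 ∈ J := hJ (by linarith) hyJ
    have i1 : IntervalIntegrable (fun s => f (y k + s)) volume 0 1 := by
      have h4 := (hL.intervalIntegrable hyJ hyJ1).comp_add_left (y k)
      simpa using h4
    have i2 : IntervalIntegrable (fun s => f (x k + s)) volume 0 1 := by
      have h4 := (hL.intervalIntegrable hxJ hxJ1).comp_add_left (x k)
      simpa using h4
    rw [← intervalIntegral.integral_of_le zero_le_one]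
    have e1 : ∀ s, Diff s f (y k) - Diff s f (x k) =
        (f (y k + s) - f (x k + s)) - (f (y k) - f (x k)) := by
      intro s; simp only [Diff]; abel
    simp only [e1]
    rw [intervalIntegral.integral_sub (i1.sub i2) intervalIntegrable_const,
      intervalIntegral.integral_sub i1 i2, intervalIntegral.integral_const]
    rw [intervalIntegral.integral_comp_add_left (fun s => f s), intervalIntegral.integral_comp_add_left (fun s => f s)]
    simp only [add_zero, sub_zero, one_smul]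
    congr 1
    have a1 := intervalIntegral.integral_add_adjacent_intervals
      (hL.intervalIntegrable hxJ hyJ) (hL.intervalIntegrable hyJ hyJ1)
    have a2 := intervalIntegral.integral_add_adjacent_intervals
      (hL.intervalIntegrable hxJ hxJ1) (hL.intervalIntegrable hxJ1 hyJ1)
    have a3 : (∫ s in (x k)..(y k), f s) + (∫ s in (y k)..(y k + 1), f s) =
      (∫ s in (x k)..(x k + 1), f s) + (∫ s in (x k + 1)..(y k + 1), f s) := by rw [a1, a2]
    have a4 : (∫ s in (y k)..(y k + 1), f s) =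
      (∫ s in (x k)..(x k + 1), f s) + (∫ s in (x k + 1)..(y k + 1), f s) -
        (∫ s in (x k)..(y k), f s) := by rw [← a3]; abel
    rw [a4]; abel
  have hbound : ∀ k, ‖f (y k) - f (x k)‖ ≤
      ‖∫ s in Ioc (0:ℝ) 1, (Diff s f (y k) - Diff s f (x k))‖ + 2 * B * dist (x k) (y k) := by
    intro k
    have hxJ := (hx k).1
    have hyJ := (hy k).1
    have hxR := (hx k).2
    have hyR := (hy k).2
    have hR := le_abs_self R
    have d1 : dist (x k) (y k) = y k - x k := by
      rw [dist_comm, Real.dist_eq, abs_of_pos (by linarith [hxy k])]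
    have b1 : ‖∫ s in (x k + 1)..(y k + 1), f s‖ ≤ B * |y k + 1 - (x k + 1)| := by
      apply intervalIntegral.norm_integral_le_of_norm_le_const
      intro s hs
      rw [uIoc_of_le (by linarith [hxy k])] at hs
      refine hB s (hJ (by linarith [hs.1]) hxJ) (abs_le.2 ⟨?_, ?_⟩)
      · linarith [hs.1, hxR.1]
      · linarith [hs.2, hyR.2]
    have b2 : ‖∫ s in (x k)..(y k), f s‖ ≤ B * |y k - x k| := by
      apply intervalIntegral.norm_integral_le_of_norm_le_const
      intro s hs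
      rw [uIoc_of_le (hxy k).le] at hs
      refine hB s (hJ (by linarith [hs.1]) hxJ) (abs_le.2 ⟨?_, ?_⟩)
      · linarith [hs.1, hxR.1]
      · linarith [hs.2, hyR.2]
    have e2 : f (y k) - f (x k) = (∫ s in (x k + 1)..(y k + 1), f s) - (∫ s in (x k)..(y k), f s) -
        ∫ s in Ioc (0:ℝ) 1, (Diff s f (y k) - Diff s f (x k)) := by
      rw [hval k]; abel
    rw [e2, d1]
    have e3 : |y k + 1 - (x k + 1)| = y k - x k := by
      rw [abs_of_pos (by linarith [hxy k])]; ring
    have e4 : |y k - x k| = y k - x k := abs_of_pos (by linarith [hxy k])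
    rw [e3] at b1
    rw [e4] at b2
    calc _ ≤ ‖∫ s in (x k + 1)..(y k + 1), f s‖ + ‖∫ s in (x k)..(y k), f s‖ +
          ‖∫ s in Ioc (0:ℝ) 1, (Diff s f (y k) - Diff s f (x k))‖ :=
          (norm_sub_le _ _).trans (add_le_add (norm_sub_le _ _) le_rfl)
      _ ≤ _ := by linarith
  have hlim : Tendsto (fun k => ‖∫ s in Ioc (0:ℝ) 1, (Diff s f (y k) - Diff s f (x k))‖ +
      2 * B * dist (x k) (y k)) atTop (𝓝 0) := by
    have := (hI.norm).add (hdist.const_mul (2 * B))
    simpa using this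
  have := ge_of_tendsto' hlim (fun k => (he k).trans (hbound k))
  linarith

/-- Continuous extension. -/
lemma exists_ext {X : Type*} [NormedAddCommGroup X] [CompleteSpace X] {f : ℝ → X} {J : Set ℝ}
    (hJ : IsUpperSet J) (hne : J.Nonempty)
    (hf : ∀ R, UniformContinuousOn f (J ∩ Icc (-R) R)) :
    ∃ F : ℝ → X, Continuous F ∧ EqOn F f J := by
  have hlim : ∀ x ∈ closure J, ∃ y, Tendsto f (𝓝[J] x) (𝓝 y) := by
    intro x hx
    have : (𝓝[J] x).NeBot := mem_closure_iff_nhdsWithin_neBot.1 hx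
    have hc : Cauchy (map f (𝓝[J] x)) := by
      rw [Metric.cauchy_iff]
      refine ⟨inferInstance, fun ε hε => ?_⟩
      obtain ⟨δ, hδ, h⟩ := Metric.uniformContinuousOn_iff.1 (hf (|x| + 1)) ε hε
      refine ⟨f '' (J ∩ Metric.ball x (min (δ / 2) 1)), image_mem_map
        (inter_mem_nhdsWithin _ (Metric.ball_mem_nhds _ (by positivity))), ?_⟩
      rintro _ ⟨a, ⟨ha, ha'⟩, rfl⟩ _ ⟨b, ⟨hb, hb'⟩, rfl⟩
      rw [Metric.mem_ball] at ha' hb'
      have hx1 := abs_le.1 (le_refl |x|)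
      have m1 : min (δ / 2) 1 ≤ 1 := min_le_right _ _
      have m2 : min (δ / 2) 1 ≤ δ / 2 := min_le_left _ _
      have r : ∀ a, dist a x < min (δ / 2) 1 → a ∈ Icc (-(|x| + 1)) (|x| + 1) := by
        intro a ha
        rw [Real.dist_eq] at ha
        have := abs_lt.1 (ha.trans_le m1)
        constructor <;> linarith
      apply h a ⟨ha, r a ha'⟩ b ⟨hb, r b hb'⟩
      calc dist a b ≤ dist a x + dist b x := dist_triangle_right _ _ _
        _ < δ := by linarith
    obtain ⟨y, hy⟩ := cauchy_iff_exists_le_nhds.1 hc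
    exact ⟨y, hy⟩
  have hcont : ContinuousOn f J := by
    intro x hx
    obtain ⟨y, hy⟩ := hlim x (subset_closure hx)
    have h1 : Tendsto f (pure x) (𝓝 y) := hy.mono_left (pure_le_nhdsWithin hx)
    have h2 : f x = y := by
      have := (tendsto_pure_nhds f x)
      exact tendsto_nhds_unique this h1
    rw [ContinuousWithinAt, h2]
    exact hy
  by_cases hb : BddBelow J
  · have hsub : Ici (sInf J) ⊆ closure J := by
      intro x hx
      rcases eq_or_lt_of_le (show sInf J ≤ x from hx) with h | h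
      · rw [← h]; exact csInf_mem_closure hne hb
      · obtain ⟨a, ha, hax⟩ := exists_lt_of_csInf_lt hne h
        exact subset_closure (hJ hax.le ha)
    have h1 : ContinuousOn (extendFrom J f) (Ici (sInf J)) :=
      continuousOn_extendFrom hsub (fun x hx => hlim x (hsub hx))
    refine ⟨fun t => extendFrom J f (max t (sInf J)), ?_, ?_⟩
    · exact h1.comp_continuous (by fun_prop) (fun t => mem_Ici.2 (le_max_right _ _))
    · intro t ht
      have : sInf J ≤ t := csInf_le hb ht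
      simp only [max_eq_left this]
      exact extendFrom_extends hcont t ht
  · have hu : J = univ := by
      apply eq_univ_of_forall
      intro x
      rw [not_bddBelow_iff] at hb
      obtain ⟨a, ha, hax⟩ := hb x
      exact hJ hax.le ha
    refine ⟨f, ?_, fun _ _ => rfl⟩
    rw [← continuousOn_univ, ← hu]
    exact hcont

end Pool.Agent.R361.Dif
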