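import Mathlib
import Pool.Agent.R361.Dif.Basic

set_option autoImplicit false
open Set Filter MeasureTheory Topology
open scoped Pointwise ENNReal

namespace Pool.Agent.R361.Dif

variable {𝕜 X : Type*} [RCLike 𝕜] [NormedAddCommGroup X] [NormedSpace ℝ X] [NormedSpace 𝕜 X]

/-- `F` is of the form `u + θ v` on `J` with `u`, `v` bounded and uniformly continuous on `J` -/
def InSum (J : Set ℝ) (θ : ℝ → 𝕜) (F : ℝ → X) : Prop :=
  ∃ u v : ℝ → X, BUC J u ∧ BUC J v ∧ ∀ t ∈ J, F t = u t + θ t • v t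

/-- eventually (as `|t| → ∞` in `J`) of norm at most `ε` -/
def Far (J : Set ℝ) (F : ℝ → X) (ε : ℝ) : Prop := ∃ T : ℝ, ∀ t ∈ J, T ≤ |t| → ‖F t‖ ≤ ε

/-- the hypotheses on `θ`, `θ'` -/
structure Osc (X : Type*) [NormedAddCommGroup X] [NormedSpace ℝ X] [NormedSpace 𝕜 X]
    (J : Set ℝ) (θ θ' : ℝ → 𝕜) : Prop where
  c1 : Continuous θ
  c2 : Continuous θ'
  b1 : ∃ C, 0 ≤ C ∧ ∀ t, ‖θ t‖ ≤ C
  b2 : ∃ C, 0 ≤ C ∧ ∀ t, ‖θ' t‖ ≤ C
  h1 : ∀ d > 0, ∀ v : ℝ → X, Continuous v → BUC J v → ∀ ε > 0,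
    Far J (Avg d (fun s => θ s • v s)) ε
  h2 : ∀ d > 0, ∀ v : ℝ → X, Continuous v → BUC J v → ∀ ε > 0,
    Far J (Avg d (fun s => θ' s • v s)) ε
  h3 : ∀ d > 0, ∀ v : ℝ → X, Continuous v → BUC J v → ∀ ε > 0,
    Far J (Avg d (fun s => (θ' s * θ s - 1) • v s)) ε

section far

omit [NormedSpace ℝ X] in
lemma Far.mono {J : Set ℝ} {F : ℝ → X} {ε ε' : ℝ} (h : Far J F ε) (he : ε ≤ ε') : Far J F ε' := by
  obtain ⟨T, hT⟩ := h
  exact ⟨T, fun t ht h => (hT t ht h).trans he⟩

omit [NormedSpace ℝ X] in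
lemma Far.add {J : Set ℝ} {F F' : ℝ → X} {ε ε' : ℝ} (h : Far J F ε) (h' : Far J F' ε') :
    Far J (fun t => F t + F' t) (ε + ε') := by
  obtain ⟨T, hT⟩ := h
  obtain ⟨T', hT'⟩ := h'
  refine ⟨max T T', fun t ht h => (norm_add_le _ _).trans (add_le_add ?_ ?_)⟩
  · exact hT t ht ((le_max_left _ _).trans h)
  · exact hT' t ht ((le_max_right _ _).trans h)

omit [NormedSpace ℝ X] in
lemma Far.sub {J : Set ℝ} {F F' : ℝ → X} {ε ε' : ℝ} (h : Far J F ε) (h' : Far J F' ε') :
    Far J (fun t => F t - F' t) (ε + ε') := by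
  obtain ⟨T, hT⟩ := h
  obtain ⟨T', hT'⟩ := h'
  refine ⟨max T T', fun t ht h => (norm_sub_le _ _).trans (add_le_add ?_ ?_)⟩
  · exact hT t ht ((le_max_left _ _).trans h)
  · exact hT' t ht ((le_max_right _ _).trans h)

omit [NormedSpace ℝ X] in
lemma Far.congr {J : Set ℝ} {F F' : ℝ → X} {ε : ℝ} (h : Far J F ε) (h' : ∀ t ∈ J, F' t = F t) :
    Far J F' ε := by
  obtain ⟨T, hT⟩ := h
  exact ⟨T, fun t ht h => by rw [h' t ht]; exact hT t ht h⟩

omit [NormedSpace ℝ X] in
lemma Far.of_le {J : Set ℝ} {F : ℝ → X} {ε : ℝ} (h : ∀ t ∈ J, ‖F t‖ ≤ ε) : Far J F ε :=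
  ⟨0, fun t ht _ => h t ht⟩

omit [NormedSpace ℝ X] in
lemma Far.smul {J : Set ℝ} {F : ℝ → X} {θ : ℝ → 𝕜} {C ε : ℝ} (hC : 0 ≤ C) (hθ : ∀ t, ‖θ t‖ ≤ C)
    (h : Far J F ε) : Far J (fun t => θ t • F t) (C * ε) := by
  obtain ⟨T, hT⟩ := h
  refine ⟨T, fun t ht h => ?_⟩
  rw [norm_smul]
  exact mul_le_mul (hθ t) (hT t ht h) (norm_nonneg _) hC

end far

section avg

/-- averages stay small -/
lemma norm_avg_le {W : ℝ → X} {C : ℝ} {d : ℝ} (hd : 0 < d)
    {t : ℝ} (hW : ∀ s ∈ Icc t (t + d), ‖W s‖ ≤ C) : ‖Avg d W t‖ ≤ C := by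
  unfold Avg
  rw [norm_smul, norm_inv, Real.norm_eq_abs, abs_of_pos hd]
  have h1 : ‖∫ s in t..(t + d), W s‖ ≤ C * |t + d - t| := by
    apply intervalIntegral.norm_integral_le_of_norm_le_const
    intro s hs
    rw [uIoc_of_le (by linarith)] at hs
    exact hW s ⟨hs.1.le, hs.2⟩
  rw [add_sub_cancel_left, abs_of_pos hd] at h1
  rw [inv_mul_le_iff₀ hd]
  linarith

lemma Far.avg {J : Set ℝ} (hJ : IsUpperSet J) {W : ℝ → X} {ε d : ℝ} (hd : 0 < d) (h : Far J W ε) :
    Far J (Avg d W) ε := by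
  obtain ⟨T, hT⟩ := h
  refine ⟨T + d, fun t ht h => norm_avg_le hd fun s hs => ?_⟩
  apply hT s (hJ hs.1 ht)
  have h1 : |s - t| ≤ d := by rw [abs_of_nonneg (by linarith [hs.1])]; linarith [hs.2]
  have h2 : |t| - |s| ≤ |t - s| := abs_sub_abs_le_abs_sub t s
  rw [abs_sub_comm] at h2
  linarith

lemma avg_sub {u v : ℝ → X} (hu : Continuous u) (hv : Continuous v) (d t : ℝ) :
    Avg d (fun s => u s - v s) t = Avg d u t - Avg d v t := by
  unfold Avg
  rw [intervalIntegral.integral_sub (hu.intervalIntegrable _ _) (hv.intervalIntegrable _ _), smul_sub]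

lemma avg_add {u v : ℝ → X} (hu : Continuous u) (hv : Continuous v) (d t : ℝ) :
    Avg d (fun s => u s + v s) t = Avg d u t + Avg d v t := by
  unfold Avg
  rw [intervalIntegral.integral_add (hu.intervalIntegrable _ _) (hv.intervalIntegrable _ _), smul_add]

lemma avg_const [CompleteSpace X] {d : ℝ} (hd : 0 < d) (c : X) (t : ℝ) :
    Avg d (fun _ => c) t = c := by
  unfold Avg
  rw [intervalIntegral.integral_const, add_sub_cancel_left, smul_smul, inv_mul_cancel₀ hd.ne',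
    one_smul]

lemma continuous_avg {u : ℝ → X} (hu : Continuous u) (d : ℝ) : Continuous (Avg d u) := by
  unfold Avg
  have h : ∀ t, (∫ s in t..(t + d), u s) = (∫ s in (0:ℝ)..(t + d), u s) - ∫ s in (0:ℝ)..t, u s := by
    intro t
    rw [intervalIntegral.integral_interval_sub_left (hu.intervalIntegrable _ _)
      (hu.intervalIntegrable _ _)]
  simp only [h]
  have h1 := intervalIntegral.continuous_primitive (μ := volume) (fun a b => hu.intervalIntegrable a b) 0
  fun_prop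

/-- the average over a short interval is close -/
lemma avg_close [CompleteSpace X] {J : Set ℝ} (hJ : IsUpperSet J) {u : ℝ → X} (hu : Continuous u)
    (hU : UniformContinuousOn u J) {η : ℝ} (hη : 0 < η) :
    ∃ δ0 > 0, ∀ δ, 0 < δ → δ < δ0 → ∀ t ∈ J, ‖u t - Avg δ u t‖ ≤ η := by
  obtain ⟨δ0, hδ0, h⟩ := Metric.uniformContinuousOn_iff.1 hU η hη
  refine ⟨δ0, hδ0, fun δ h1 h2 t ht => ?_⟩
  have e : u t - Avg δ u t = Avg δ (fun s => u t - u s) t := by
    rw [avg_sub continuous_const hu, avg_const h1]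
  rw [e]
  apply norm_avg_le h1
  intro s hs
  rw [← dist_eq_norm]
  refine (h t ht s (hJ hs.1 ht) ?_).le
  rw [dist_comm, Real.dist_eq, abs_of_nonneg (by linarith [hs.1])]
  linarith [hs.2]

/-- averages of bounded functions are bounded and Lipschitz -/
lemma BUC_avg {J : Set ℝ} (hJ : IsUpperSet J) {W : ℝ → X} (hW : Continuous W) {C : ℝ} (hC : 0 ≤ C)
    (hb : ∀ t ∈ J, ‖W t‖ ≤ C) {d : ℝ} (hd : 0 < d) : BUC J (Avg d W) := by
  refine ⟨?_, C, fun t ht => norm_avg_le hd fun s hs => hb s (hJ hs.1 ht)⟩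
  have key : ∀ t ∈ J, ∀ t' ∈ J, t ≤ t' → dist (Avg d W t') (Avg d W t) ≤ d⁻¹ * (2 * C) * (t' - t) := by
    intro t ht t' ht' htt
    have hi : ∀ a b, IntervalIntegrable W volume a b := fun a b => hW.intervalIntegrable a b
    rw [dist_eq_norm]
    have e : Avg d W t' - Avg d W t = d⁻¹ • ((∫ s in (t + d)..(t' + d), W s) - ∫ s in t..t', W s) := by
      unfold Avg
      rw [← smul_sub]
      congr 1
      have a1 := intervalIntegral.integral_add_adjacent_intervals (hi t t') (hi t' (t' + d))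
      have a2 := intervalIntegral.integral_add_adjacent_intervals (hi t (t + d)) (hi (t + d) (t' + d))
      have a3 : (∫ s in t..t', W s) + (∫ s in t'..(t' + d), W s) =
        (∫ s in t..(t + d), W s) + (∫ s in (t + d)..(t' + d), W s) := by rw [a1, a2]
      have a4 : (∫ s in t'..(t' + d), W s) = (∫ s in t..(t + d), W s) +
        (∫ s in (t + d)..(t' + d), W s) - (∫ s in t..t', W s) := by rw [← a3]; abel
      rw [a4]; abel
    rw [e, norm_smul, norm_inv, Real.norm_eq_abs, abs_of_pos hd, mul_assoc]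
    apply mul_le_mul_of_nonneg_left _ (by positivity)
    have b1 : ‖∫ s in (t + d)..(t' + d), W s‖ ≤ C * |t' + d - (t + d)| := by
      apply intervalIntegral.norm_integral_le_of_norm_le_const
      intro s hs
      rw [uIoc_of_le (by linarith)] at hs
      exact hb s (hJ (by linarith [hs.1]) ht)
    have b2 : ‖∫ s in t..t', W s‖ ≤ C * |t' - t| := by
      apply intervalIntegral.norm_integral_le_of_norm_le_const
      intro s hs
      rw [uIoc_of_le htt] at hs
      exact hb s (hJ (by linarith [hs.1]) ht)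
    have e1 : t' + d - (t + d) = t' - t := by ring
    rw [e1, abs_of_nonneg (by linarith)] at b1
    rw [abs_of_nonneg (by linarith)] at b2
    calc _ ≤ ‖∫ s in (t + d)..(t' + d), W s‖ + ‖∫ s in t..t', W s‖ := norm_sub_le _ _
      _ ≤ 2 * C * (t' - t) := by linarith
  have hL : LipschitzOnWith (Real.toNNReal (d⁻¹ * (2 * C))) (Avg d W) J := by
    apply LipschitzOnWith.of_dist_le_mul
    intro t ht t' ht'
    rw [Real.coe_toNNReal _ (by positivity)]
    rcases le_total t t' with h | h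
    · rw [dist_comm, dist_comm t t', Real.dist_eq, abs_of_nonneg (by linarith)]
      exact key t ht t' ht' h
    · rw [Real.dist_eq, abs_of_nonneg (by linarith)]
      exact key t' ht' t ht h
  exact hL.uniformContinuousOn

end avg

section buc

omit [NormedSpace ℝ X] in
lemma BUC.congr {J : Set ℝ} {u v : ℝ → X} (h : BUC J u) (he : EqOn v u J) : BUC J v := by
  obtain ⟨h1, C, h2⟩ := h
  refine ⟨h1.congr (fun t ht => (he ht).symm), C, fun t ht => by rw [he ht]; exact h2 t ht⟩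

omit [NormedSpace ℝ X] in
lemma BUC.add {J : Set ℝ} {u v : ℝ → X} (h : BUC J u) (h' : BUC J v) :
    BUC J (fun t => u t + v t) := by
  obtain ⟨h1, C, h2⟩ := h
  obtain ⟨h1', C', h2'⟩ := h'
  exact ⟨uniformContinuousOn_iff_restrict.2 ((uniformContinuousOn_iff_restrict.1 h1).add
    (uniformContinuousOn_iff_restrict.1 h1')), C + C', fun t ht => (norm_add_le _ _).trans (add_le_add (h2 t ht) (h2' t ht))⟩

omit [NormedSpace ℝ X] in
lemma BUC.sub {J : Set ℝ} {u v : ℝ → X} (h : BUC J u) (h' : BUC J v) :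
    BUC J (fun t => u t - v t) := by
  obtain ⟨h1, C, h2⟩ := h
  obtain ⟨h1', C', h2'⟩ := h'
  exact ⟨uniformContinuousOn_iff_restrict.2 ((uniformContinuousOn_iff_restrict.1 h1).sub
    (uniformContinuousOn_iff_restrict.1 h1')), C + C', fun t ht => (norm_sub_le _ _).trans (add_le_add (h2 t ht) (h2' t ht))⟩

omit [NormedSpace ℝ X] in
lemma BUC.exists_cont [CompleteSpace X] {J : Set ℝ} (hJ : IsUpperSet J) (hne : J.Nonempty)
    {u : ℝ → X} (h : BUC J u) : ∃ v : ℝ → X, Continuous v ∧ BUC J v ∧ EqOn v u J := by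
  obtain ⟨v, hv, he⟩ := exists_ext hJ hne (fun R => h.1.mono inter_subset_left)
  exact ⟨v, hv, h.congr he, he⟩

/-- multiplication with a bounded Lipschitz cutoff -/
lemma BUC.cut {J : Set ℝ} {u : ℝ → X} (h : BUC J u) (T : ℝ) :
    BUC J (fun t => (max 0 (min 1 (|t| - T))) • u t) := by
  obtain ⟨h1, C, h2⟩ := h
  have hc0 : ∀ t : ℝ, 0 ≤ max 0 (min 1 (|t| - T)) := fun t => le_max_left _ _
  have hc1 : ∀ t : ℝ, max 0 (min 1 (|t| - T)) ≤ 1 := fun t => max_le zero_le_one (min_le_left _ _)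
  have hcl : ∀ t s : ℝ, |max 0 (min 1 (|t| - T)) - max 0 (min 1 (|s| - T))| ≤ |t - s| := by
    intro t s
    calc _ ≤ |min 1 (|t| - T) - min 1 (|s| - T)| := by
          have := abs_max_sub_max_le_max 0 (min 1 (|t| - T)) 0 (min 1 (|s| - T))
          simpa using this
      _ ≤ |(|t| - T) - (|s| - T)| := by
          have := abs_min_sub_min_le_max 1 (|t| - T) 1 (|s| - T)
          simpa using this
      _ = |(|t| - |s|)| := by ring_nf
      _ ≤ |t - s| := abs_abs_sub_abs_le_abs_sub t s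
  refine ⟨?_, |C|, fun t ht => ?_⟩
  · rw [Metric.uniformContinuousOn_iff] at h1 ⊢
    intro ε hε
    obtain ⟨δ, hδ, h⟩ := h1 (ε / 2) (by positivity)
    refine ⟨min δ (ε / (2 * (|C| + 1))), by positivity, fun t ht s hs hts => ?_⟩
    rw [dist_eq_norm]
    have e : (max 0 (min 1 (|t| - T))) • u t - (max 0 (min 1 (|s| - T))) • u s =
        (max 0 (min 1 (|t| - T))) • (u t - u s) +
        ((max 0 (min 1 (|t| - T))) - (max 0 (min 1 (|s| - T)))) • u s := by
      rw [smul_sub, sub_smul]; abel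
    rw [e]
    have a1 : ‖(max 0 (min 1 (|t| - T))) • (u t - u s)‖ < ε / 2 := by
      rw [norm_smul, Real.norm_eq_abs, abs_of_nonneg (hc0 t), ← dist_eq_norm]
      have := h t ht s hs (hts.trans_le (min_le_left _ _))
      calc _ ≤ 1 * dist (u t) (u s) := mul_le_mul_of_nonneg_right (hc1 t) dist_nonneg
        _ < ε / 2 := by rwa [one_mul]
    have a2 : ‖((max 0 (min 1 (|t| - T))) - (max 0 (min 1 (|s| - T)))) • u s‖ ≤ ε / 2 := by
      rw [norm_smul, Real.norm_eq_abs]
      have b1 := hcl t s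
      have b2 : ‖u s‖ ≤ |C| + 1 := by linarith [h2 s hs, le_abs_self C]
      have b3 : |t - s| ≤ ε / (2 * (|C| + 1)) := by
        rw [← Real.dist_eq]; exact (hts.trans_le (min_le_right _ _)).le
      calc _ ≤ ε / (2 * (|C| + 1)) * (|C| + 1) :=
            mul_le_mul (b1.trans b3) b2 (norm_nonneg _) (by positivity)
        _ = ε / 2 := by field_simp
    calc _ ≤ _ := norm_add_le _ _
      _ < ε := by linarith
  · rw [norm_smul, Real.norm_eq_abs, abs_of_nonneg (hc0 t)]
    calc _ ≤ 1 * ‖u t‖ := mul_le_mul_of_nonneg_right (hc1 t) (norm_nonneg _)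
      _ ≤ |C| := by rw [one_mul]; exact (h2 t ht).trans (le_abs_self _)

omit [NormedSpace ℝ X] in
/-- a continuous function which is small at infinity is BUC -/
lemma BUC_of_far {J : Set ℝ} {R : ℝ → X} (hR : Continuous R) (h : ∀ ε > 0, Far J R ε) : BUC J R := by
  constructor
  · rw [Metric.uniformContinuousOn_iff]
    intro ε hε
    obtain ⟨T, hT⟩ := h (ε / 4) (by positivity)
    have h1 : UniformContinuousOn R (Icc (-(|T| + 1)) (|T| + 1)) :=
      isCompact_Icc.uniformContinuousOn_of_continuous hR.continuousOn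
    obtain ⟨δ, hδ, h2⟩ := Metric.uniformContinuousOn_iff.1 h1 ε hε
    refine ⟨min δ 1, by positivity, fun t ht s hs hts => ?_⟩
    have hd1 : dist t s < 1 := hts.trans_le (min_le_right _ _)
    rw [Real.dist_eq] at hd1
    have hTT := le_abs_self T
    by_cases hm : |T| + 1 < |t| ∨ |T| + 1 < |s|
    · have a : T ≤ |t| ∧ T ≤ |s| := by
        have b1 := abs_sub_abs_le_abs_sub t s
        have b2 := abs_sub_abs_le_abs_sub s t
        rw [abs_sub_comm] at b2
        rcases hm with hm | hm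
        · constructor <;> linarith
        · constructor <;> linarith
      rw [dist_eq_norm]
      calc ‖R t - R s‖ ≤ ‖R t‖ + ‖R s‖ := norm_sub_le _ _
        _ ≤ ε / 4 + ε / 4 := add_le_add (hT t ht a.1) (hT s hs a.2)
        _ < ε := by linarith
    · push Not at hm
      exact h2 t (abs_le.1 hm.1) s (abs_le.1 hm.2) (hts.trans_le (min_le_left _ _))
  · obtain ⟨T, hT⟩ := h 1 one_pos
    obtain ⟨C, hC⟩ := (isCompact_Icc (a := -|T|) (b := |T|)).exists_bound_of_continuousOn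
      hR.continuousOn
    refine ⟨max 1 C, fun t ht => ?_⟩
    by_cases hm : |t| ≤ |T|
    · exact (hC t (abs_le.1 hm)).trans (le_max_right _ _)
    · push Not at hm
      exact (hT t ht ((le_abs_self T).trans hm.le)).trans (le_max_left _ _)

end buc

end Pool.Agent.R361.Dif
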