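import Mathlib
import Pool.Agent.R361.Dif.ThmB

set_option autoImplicit false
open Set Filter MeasureTheory Topology
open scoped Pointwise ENNReal

namespace Pool.Agent.R361.Dif

variable {𝕜 X : Type*} [RCLike 𝕜] [NormedAddCommGroup X] [NormedSpace ℝ X] [NormedSpace 𝕜 X]

/-- `F - M_δ F - θ M_δ(θ' F)` -/
noncomputable def Er (θ θ' : ℝ → 𝕜) (δ : ℝ) (F : ℝ → X) (t : ℝ) : X :=
  F t - Avg δ F t - θ t • Avg δ (fun s => θ' s • F s) t

lemma Er_congr {J : Set ℝ} (hJ : IsUpperSet J) (θ θ' : ℝ → 𝕜) {δ : ℝ} (hδ : 0 < δ) {F F' : ℝ → X}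
    (h : EqOn F F' J) {t : ℝ} (ht : t ∈ J) : Er θ θ' δ F t = Er θ θ' δ F' t := by
  have h1 : ∀ s ∈ uIcc t (t + δ), F s = F' s := by
    intro s hs
    rw [uIcc_of_le (by linarith)] at hs
    exact h (hJ hs.1 ht)
  unfold Er Avg
  rw [h ht, intervalIntegral.integral_congr h1,
    intervalIntegral.integral_congr (f := fun s => θ' s • F s) (g := fun s => θ' s • F' s)
      (fun s hs => by simp only [h1 s hs])]

lemma Er_decomp {θ θ' : ℝ → 𝕜} (hθ : Continuous θ) (hθ' : Continuous θ') {u v : ℝ → X}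
    (hu : Continuous u) (hv : Continuous v) (δ t : ℝ) :
    Er θ θ' δ (fun t => u t + θ t • v t) t =
      (u t - Avg δ u t) + θ t • (v t - Avg δ v t) - Avg δ (fun s => θ s • v s) t -
        θ t • (Avg δ (fun s => θ' s • u s) t + Avg δ (fun s => (θ' s * θ s - 1) • v s) t) := by
  have e1 : Avg δ (fun s => u s + θ s • v s) t = Avg δ u t + Avg δ (fun s => θ s • v s) t :=
    avg_add hu (hθ.smul hv) δ t
  have e2 : Avg δ (fun s => θ' s • (u s + θ s • v s)) t = Avg δ (fun s => θ' s • u s) t +
      (Avg δ (fun s => (θ' s * θ s - 1) • v s) t + Avg δ v t) := by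
    have e3 : (fun s => θ' s • (u s + θ s • v s)) =
        fun s => θ' s • u s + ((θ' s * θ s - 1) • v s + v s) := by
      funext s
      rw [smul_add, sub_smul, one_smul, mul_smul]; abel
    have k1 : Continuous (fun s => θ' s • u s) := by fun_prop
    have k2 : Continuous (fun s => (θ' s * θ s - 1) • v s) := by fun_prop
    have k3 : Continuous (fun s => (θ' s * θ s - 1) • v s + v s) := by fun_prop
    rw [e3, avg_add k1 k3, avg_add k2 hv]
  unfold Er
  rw [e1, e2]
  simp only [smul_add, smul_sub]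
  abel

lemma Er_small [CompleteSpace X] {J : Set ℝ} (hJ : IsUpperSet J) {θ θ' : ℝ → 𝕜} (hO : Osc X J θ θ')
    {u v : ℝ → X} (hu : Continuous u) (hv : Continuous v) (hu' : BUC J u) (hv' : BUC J v)
    {ε : ℝ} (hε : 0 < ε) : ∃ δ0 > 0, ∀ δ, 0 < δ → δ < δ0 →
      Far J (Er θ θ' δ (fun t => u t + θ t • v t)) ε := by
  obtain ⟨C, hC0, hC⟩ := hO.b1
  obtain ⟨δ1, hδ1, h1⟩ := avg_close hJ hu hu'.1 (η := ε / 4) (by positivity)
  obtain ⟨δ2, hδ2, h2⟩ := avg_close hJ hv hv'.1 (η := ε / (4 * (C + 1))) (by positivity)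
  refine ⟨min δ1 δ2, by positivity, fun δ hδ hδ' => ?_⟩
  have a1 : Far J (fun t => u t - Avg δ u t) (ε / 4) :=
    Far.of_le (h1 δ hδ (hδ'.trans_le (min_le_left _ _)))
  have a2 : Far J (fun t => θ t • (v t - Avg δ v t)) (C * (ε / (4 * (C + 1)))) :=
    Far.smul hC0 hC (Far.of_le (h2 δ hδ (hδ'.trans_le (min_le_right _ _))))
  have a3 := hO.h1 δ hδ v hv hv' (ε / 8) (by positivity)
  have a4 := hO.h2 δ hδ u hu hu' (ε / (16 * (C + 1))) (by positivity)
  have a5 := hO.h3 δ hδ v hv hv' (ε / (16 * (C + 1))) (by positivity)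
  have a6 := Far.smul hC0 hC (a4.add a5)
  have a7 := ((a1.add a2).sub a3).sub a6
  refine (a7.mono ?_).congr (fun t _ => Er_decomp hO.c1 hO.c2 hu hv δ t)
  have b1 : C * (ε / (4 * (C + 1))) ≤ ε / 4 := by
    rw [mul_div_assoc', div_le_div_iff₀ (by positivity) (by positivity)]
    nlinarith
  have b2 : C * (ε / (16 * (C + 1)) + ε / (16 * (C + 1))) ≤ ε / 8 := by
    have : ε / (16 * (C + 1)) + ε / (16 * (C + 1)) = ε / (8 * (C + 1)) := by field_simp; ring
    rw [this, mul_div_assoc', div_le_div_iff₀ (by positivity) (by positivity)]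
    nlinarith
  linarith

lemma swap_int {F : ℝ → ℝ → X} (hF : Continuous (Function.uncurry F)) {a b c d : ℝ} (hab : a ≤ b)
    (hcd : c ≤ d) :
    ∫ x in a..b, ∫ y in c..d, F x y = ∫ y in c..d, ∫ x in a..b, F x y := by
  simp only [intervalIntegral.integral_of_le hab, intervalIntegral.integral_of_le hcd]
  apply integral_integral_swap
  have h1 : IntegrableOn (Function.uncurry F) (Icc a b ×ˢ Icc c d) (volume.prod volume) :=
    hF.continuousOn.integrableOn_compact (isCompact_Icc.prod isCompact_Icc)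
  have h2 := h1.mono_set (prod_mono (Ioc_subset_Icc_self (a := a) (b := b))
    (Ioc_subset_Icc_self (a := c) (b := d)))
  rwa [IntegrableOn, ← Measure.prod_restrict] at h2

/-- the mean of the differences -/
noncomputable def GG (h : ℝ) (f : ℝ → X) (t : ℝ) : X := h⁻¹ • ∫ s in (0:ℝ)..h, Diff s f t

lemma GG_eq [CompleteSpace X] {f : ℝ → X} (hf : Continuous f) {h : ℝ} (hh : 0 < h) (t : ℝ) :
    GG h f t = Avg h f t - f t := by
  unfold GG Diff Avg
  have k1 : Continuous (fun s => f (t + s)) := by fun_prop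
  rw [intervalIntegral.integral_sub (k1.intervalIntegrable _ _)
    intervalIntegrable_const, intervalIntegral.integral_const,
    intervalIntegral.integral_comp_add_left (fun s => f s), smul_sub, smul_smul]
  simp only [add_zero, sub_zero]
  rw [inv_mul_cancel₀ hh.ne', one_smul]

lemma continuous_GG [CompleteSpace X] {f : ℝ → X} (hf : Continuous f) {h : ℝ} (hh : 0 < h) :
    Continuous (GG h f) := by
  have : GG h f = fun t => Avg h f t - f t := by
    funext t; exact GG_eq hf hh t
  rw [this]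
  exact (continuous_avg hf h).sub hf

lemma continuous_ErDiff {θ θ' : ℝ → 𝕜} (hθ' : Continuous θ') {f : ℝ → X} (hf : Continuous f)
    (δ t : ℝ) : Continuous (fun s => Er θ θ' δ (Diff s f) t) := by
  unfold Er Diff Avg
  have h1 : Continuous (fun s : ℝ => ∫ r in t..(t + δ), (f (r + s) - f r)) := by
    apply intervalIntegral.continuous_parametric_intervalIntegral_of_continuous'
    simp only [Function.uncurry_def]
    fun_prop
  have h2 : Continuous (fun s : ℝ => ∫ r in t..(t + δ), θ' r • (f (r + s) - f r)) := by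
    apply intervalIntegral.continuous_parametric_intervalIntegral_of_continuous'
    simp only [Function.uncurry_def]
    fun_prop
  fun_prop

lemma Er_GG [IsScalarTower ℝ 𝕜 X] {θ θ' : ℝ → 𝕜} (hθ' : Continuous θ') {f : ℝ → X}
    (hf : Continuous f) {h : ℝ} (hh : 0 < h) {δ : ℝ} (hδ : 0 < δ) (t : ℝ) :
    Er θ θ' δ (GG h f) t = h⁻¹ • ∫ s in (0:ℝ)..h, Er θ θ' δ (Diff s f) t := by
  have c0 : Continuous (fun s => Diff s f t) := by unfold Diff; fun_prop
  have c1 : Continuous (fun s : ℝ => ∫ r in t..(t + δ), Diff s f r) := by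
    unfold Diff
    apply intervalIntegral.continuous_parametric_intervalIntegral_of_continuous'
    simp only [Function.uncurry_def]
    fun_prop
  have c2 : Continuous (fun s : ℝ => ∫ r in t..(t + δ), θ' r • Diff s f r) := by
    unfold Diff
    apply intervalIntegral.continuous_parametric_intervalIntegral_of_continuous'
    simp only [Function.uncurry_def]
    fun_prop
  have s1 : ∫ s in (0:ℝ)..h, ∫ r in t..(t + δ), Diff s f r =
      ∫ r in t..(t + δ), ∫ s in (0:ℝ)..h, Diff s f r := by
    apply swap_int _ hh.le (by linarith)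
    unfold Diff
    simp only [Function.uncurry_def]
    fun_prop
  have s2 : ∫ s in (0:ℝ)..h, ∫ r in t..(t + δ), θ' r • Diff s f r =
      ∫ r in t..(t + δ), ∫ s in (0:ℝ)..h, θ' r • Diff s f r := by
    apply swap_int _ hh.le (by linarith)
    unfold Diff
    simp only [Function.uncurry_def]
    fun_prop
  have k1 : Continuous (fun s => Avg δ (Diff s f) t) := by unfold Avg; exact c1.const_smul _
  have k2 : Continuous (fun s => θ t • Avg δ (fun r => θ' r • Diff s f r) t) := by
    unfold Avg; exact (c2.const_smul _).const_smul _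
  have k3 : Continuous (fun s => Diff s f t - Avg δ (Diff s f) t) := c0.sub k1
  unfold Er
  rw [intervalIntegral.integral_sub (k3.intervalIntegrable _ _) (k2.intervalIntegrable _ _),
    intervalIntegral.integral_sub (c0.intervalIntegrable _ _) (k1.intervalIntegrable _ _)]
  rw [intervalIntegral.integral_smul]
  unfold Avg
  rw [intervalIntegral.integral_smul, intervalIntegral.integral_smul, s1, s2]
  unfold GG
  simp only [smul_sub]
  congr 1
  · congr 1
    rw [intervalIntegral.integral_smul, smul_comm]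
  · rw [smul_comm (h⁻¹ : ℝ) (θ t), smul_comm (h⁻¹ : ℝ) (δ⁻¹ : ℝ), ← intervalIntegral.integral_smul (h⁻¹ : ℝ)]
    congr 2
    apply intervalIntegral.integral_congr
    intro r _
    simp only
    rw [intervalIntegral.integral_smul, smul_comm]

end Pool.Agent.R361.Dif
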