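import Mathlib
import Pool.Agent.R361.Dif.Core

set_option autoImplicit false
open Set Filter MeasureTheory Topology
open scoped Pointwise ENNReal

namespace Pool.Agent.R361.Dif

variable {𝕜 X : Type*} [RCLike 𝕜] [NormedAddCommGroup X] [NormedSpace ℝ X] [NormedSpace 𝕜 X]

omit [NormedSpace ℝ X] in
lemma InSum.cont [CompleteSpace X] {J : Set ℝ} (hJ : IsUpperSet J) (hne : J.Nonempty) {θ : ℝ → 𝕜}
    {F : ℝ → X} (h : InSum J θ F) : ∃ u v : ℝ → X, Continuous u ∧ Continuous v ∧ BUC J u ∧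
      BUC J v ∧ EqOn F (fun t => u t + θ t • v t) J := by
  obtain ⟨u, v, hu, hv, h⟩ := h
  obtain ⟨u', c1, b1, e1⟩ := hu.exists_cont hJ hne
  obtain ⟨v', c2, b2, e2⟩ := hv.exists_cont hJ hne
  refine ⟨u', v', c1, c2, b1, b2, fun t ht => ?_⟩
  simp only [h t ht, e1 ht, e2 ht]

lemma exists_good [CompleteSpace X] [IsScalarTower ℝ 𝕜 X] {J : Set ℝ} (hJ : IsUpperSet J)
    (hne : J.Nonempty) {θ θ' : ℝ → 𝕜} (hO : Osc X J θ θ') {f : ℝ → X} (hf : Continuous f)
    (hA : ∀ a > 0, InSum J θ (Diff a f))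
    (hb : ∀ h : ℝ, ∃ C : ℝ, ∀ s, 0 ≤ s → s ≤ h → ∀ t ∈ J, ‖Diff s f t‖ ≤ C) {h : ℝ} (hh : 0 < h)
    {ε : ℝ} (hε : 0 < ε) : ∃ δ > 0, Far J (Er θ θ' δ (GG h f)) ε := by
  by_contra hcon
  push Not at hcon
  have hδpos : ∀ n : ℕ, 0 < 1 / ((n : ℝ) + 1) := fun n => by positivity
  have h1 : ∀ n m : ℕ, ∃ t ∈ J, (m : ℝ) ≤ |t| ∧ ε < ‖Er θ θ' (1 / ((n : ℝ) + 1)) (GG h f) t‖ := by
    intro n m
    by_contra hc
    push Not at hc
    exact hcon _ (hδpos n) ⟨m, hc⟩
  choose t htJ htm hte using h1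
  obtain ⟨C, hC⟩ := hb h
  obtain ⟨C1, hC10, hC1⟩ := hO.b1
  obtain ⟨C2, hC20, hC2⟩ := hO.b2
  have hCnn : 0 ≤ C := by
    obtain ⟨t0, ht0⟩ := hne
    exact (norm_nonneg _).trans (hC 0 le_rfl hh.le t0 ht0)
  set μ : Measure ℝ := volume.restrict (Ioc 0 h) with hμ
  let Φ : ℕ → ℕ → ℝ → ℝ≥0∞ := fun n m s => ‖Er θ θ' (1 / ((n : ℝ) + 1)) (Diff s f) (t n m)‖ₑ
  have hΦm : ∀ n m, Measurable (Φ n m) := fun n m =>
    (continuous_ErDiff hO.c2 hf _ _).enorm.measurable
  let B : ℝ := C + C + C1 * (C2 * C)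
  have hB : ∀ n m, Φ n m ≤ᵐ[μ] fun _ => ENNReal.ofReal B := by
    intro n m
    refine (ae_restrict_iff' measurableSet_Ioc).2 (Eventually.of_forall fun s hs => ?_)
    simp only [Φ]
    rw [← ofReal_norm]
    apply ENNReal.ofReal_le_ofReal
    have hD : ∀ r ∈ Icc (t n m) (t n m + 1 / ((n : ℝ) + 1)), ‖Diff s f r‖ ≤ C := fun r hr =>
      hC s hs.1.le hs.2 r (hJ hr.1 (htJ n m))
    have b0 : ‖Diff s f (t n m)‖ ≤ C := hC s hs.1.le hs.2 _ (htJ n m)
    have b1 : ‖Avg (1 / ((n : ℝ) + 1)) (Diff s f) (t n m)‖ ≤ C := norm_avg_le (hδpos n) hD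
    have b2 : ‖Avg (1 / ((n : ℝ) + 1)) (fun r => θ' r • Diff s f r) (t n m)‖ ≤ C2 * C := by
      apply norm_avg_le (hδpos n)
      intro r hr
      rw [norm_smul]
      exact mul_le_mul (hC2 r) (hD r hr) (norm_nonneg _) hC20
    unfold Er
    calc _ ≤ ‖Diff s f (t n m)‖ + ‖Avg (1 / ((n : ℝ) + 1)) (Diff s f) (t n m)‖ +
          ‖θ (t n m) • Avg (1 / ((n : ℝ) + 1)) (fun r => θ' r • Diff s f r) (t n m)‖ :=
          (norm_sub_le _ _).trans (add_le_add (norm_sub_le _ _) le_rfl)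
      _ ≤ C + C + C1 * (C2 * C) := by
        refine add_le_add (add_le_add b0 b1) ?_
        rw [norm_smul]
        exact mul_le_mul (hC1 _) b2 (norm_nonneg _) hC10
  have hfin : ∫⁻ _, ENNReal.ofReal B ∂μ ≠ ∞ := by
    rw [lintegral_const]
    exact ENNReal.mul_ne_top ENNReal.ofReal_ne_top (measure_ne_top _ _)
  have hlow : ∀ n m, ENNReal.ofReal (ε * h) ≤ ∫⁻ s, Φ n m s ∂μ := by
    intro n m
    have h2 := (hte n m).le
    rw [Er_GG hO.c2 hf hh (hδpos n), norm_smul, norm_inv, Real.norm_eq_abs, abs_of_pos hh,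
      intervalIntegral.integral_of_le hh.le] at h2
    have h3 : ε * h ≤ ‖∫ s in Ioc 0 h, Er θ θ' (1 / ((n : ℝ) + 1)) (Diff s f) (t n m)‖ := by
      rw [inv_mul_eq_div, le_div_iff₀ hh] at h2
      exact h2
    calc ENNReal.ofReal (ε * h) ≤ ENNReal.ofReal
          ‖∫ s in Ioc 0 h, Er θ θ' (1 / ((n : ℝ) + 1)) (Diff s f) (t n m)‖ :=
          ENNReal.ofReal_le_ofReal h3
      _ = ‖∫ s in Ioc 0 h, Er θ θ' (1 / ((n : ℝ) + 1)) (Diff s f) (t n m)‖ₑ :=
          ofReal_norm _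
      _ ≤ ∫⁻ s, Φ n m s ∂μ := enorm_integral_le_lintegral_enorm _
  let L : ℕ → ℝ → ℝ≥0∞ := fun n s => limsup (fun m => Φ n m s) atTop
  have hLlow : ∀ n, ENNReal.ofReal (ε * h) ≤ ∫⁻ s, L n s ∂μ := by
    intro n
    refine le_trans ?_ (limsup_lintegral_le (fun _ => ENNReal.ofReal B) (hΦm n) (hB n) hfin)
    have := limsup_le_limsup (f := atTop) (u := fun _ : ℕ => ENNReal.ofReal (ε * h))
      (v := fun m => ∫⁻ s, Φ n m s ∂μ) (Eventually.of_forall (hlow n))
    rwa [limsup_const] at this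
  have hLm : ∀ n, Measurable (L n) := fun n => Measurable.limsup (hΦm n)
  have hLb : ∀ n, L n ≤ᵐ[μ] fun _ => ENNReal.ofReal B := by
    intro n
    have : ∀ᵐ s ∂μ, ∀ m, Φ n m s ≤ ENNReal.ofReal B := ae_all_iff.2 (hB n)
    filter_upwards [this] with s hs
    exact limsup_le_of_le (by isBoundedDefault) (Eventually.of_forall hs)
  have hL0 : ∀ᵐ s ∂μ, Tendsto (fun n => L n s) atTop (𝓝 0) := by
    refine (ae_restrict_iff' measurableSet_Ioc).2 (Eventually.of_forall fun s hs => ?_)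
    rw [ENNReal.tendsto_atTop_zero]
    intro η hη
    obtain ⟨η', hη'0, hη'⟩ : ∃ η' : ℝ, 0 < η' ∧ ENNReal.ofReal η' ≤ η := by
      by_cases ht : η = ∞
      · exact ⟨1, one_pos, by rw [ht]; exact le_top⟩
      · exact ⟨η.toReal, ENNReal.toReal_pos hη.ne' ht, ENNReal.ofReal_toReal_le⟩
    obtain ⟨u, v, cu, cv, bu, bv, he⟩ := (hA s hs.1).cont hJ hne
    obtain ⟨δ0, hδ0, hδ⟩ := Er_small hJ hO cu cv bu bv hη'0
    obtain ⟨N, hN⟩ := exists_nat_one_div_lt hδ0
    refine ⟨N, fun n hn => ?_⟩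
    have hn' : 1 / ((n : ℝ) + 1) < δ0 := by
      refine lt_of_le_of_lt ?_ hN
      apply one_div_le_one_div_of_le (by positivity)
      have : (N : ℝ) ≤ n := by exact_mod_cast hn
      linarith
    obtain ⟨T, hT⟩ := hδ _ (hδpos n) hn'
    refine le_trans (limsup_le_of_le (by isBoundedDefault) ?_) hη'
    obtain ⟨M, hM⟩ := exists_nat_ge T
    filter_upwards [eventually_ge_atTop M] with m hm
    simp only [Φ]
    rw [← ofReal_norm]
    apply ENNReal.ofReal_le_ofReal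
    rw [Er_congr hJ θ θ' (hδpos n) he (htJ n m)]
    apply hT _ (htJ n m)
    have : (M : ℝ) ≤ m := by exact_mod_cast hm
    linarith [htm n m]
  have hlim := tendsto_lintegral_of_dominated_convergence (μ := μ) (F := L) (f := fun _ => 0)
    (fun _ => ENNReal.ofReal B) hLm hLb hfin hL0
  simp only [lintegral_zero] at hlim
  have := ge_of_tendsto' hlim hLlow
  simp only [nonpos_iff_eq_zero, ENNReal.ofReal_eq_zero] at this
  have : 0 < ε * h := by positivity
  linarith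

lemma sep_small [CompleteSpace X] {J : Set ℝ} (hJ : IsUpperSet J) {θ θ' : ℝ → 𝕜} (hO : Osc X J θ θ')
    {C2 : ℝ} (hC20 : 0 ≤ C2) (hC2 : ∀ t, ‖θ' t‖ ≤ C2)
    {p q : ℝ → X} (hp : Continuous p) (hq : Continuous q) (hp' : BUC J p) (hq' : BUC J q)
    {ε η : ℝ} (hη : 0 < η) (h : Far J (fun t => p t + θ t • q t) ε) :
    Far J p (ε + η) ∧ Far J q (C2 * ε + η) := by
  have hc1 := hO.c1
  have hc2 := hO.c2
  have k1 : Continuous (fun t => θ t • q t) := by fun_prop
  constructor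
  · obtain ⟨e0, he0, he⟩ := avg_close hJ hp hp'.1 (η := η / 2) (by positivity)
    have a1 : Far J (fun t => p t - Avg (e0 / 2) p t) (η / 2) :=
      Far.of_le (he (e0 / 2) (by positivity) (by linarith))
    have a2 := Far.avg hJ (by positivity : 0 < e0 / 2) h
    have a3 := hO.h1 (e0 / 2) (by positivity) q hq hq' (η / 2) (by positivity)
    refine (((a1.add a2).sub a3).mono (by linarith)).congr (fun t _ => ?_)
    rw [avg_add hp k1]; abel
  · obtain ⟨e0, he0, he⟩ := avg_close hJ hq hq'.1 (η := η / 3) (by positivity)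
    have a1 : Far J (fun t => q t - Avg (e0 / 2) q t) (η / 3) :=
      Far.of_le (he (e0 / 2) (by positivity) (by linarith))
    have a2 := Far.avg hJ (by positivity : 0 < e0 / 2) (Far.smul hC20 hC2 h)
    have a3 := hO.h2 (e0 / 2) (by positivity) p hp hp' (η / 3) (by positivity)
    have a4 := hO.h3 (e0 / 2) (by positivity) q hq hq' (η / 3) (by positivity)
    refine ((((a1.add a2).sub a3).sub a4).mono (by linarith)).congr (fun t _ => ?_)
    have e3 : (fun s => θ' s • (p s + θ s • q s)) =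
        fun s => θ' s • p s + ((θ' s * θ s - 1) • q s + q s) := by
      funext s
      rw [smul_add, sub_smul, one_smul, mul_smul]; abel
    have k1 : Continuous (fun s => θ' s • p s) := by fun_prop
    have k2 : Continuous (fun s => (θ' s * θ s - 1) • q s) := by fun_prop
    have k3 : Continuous (fun s => (θ' s * θ s - 1) • q s + q s) := by fun_prop
    rw [e3, avg_add k1 k3, avg_add k2 hq]
    abel

omit [NormedSpace 𝕜 X] in
lemma glue [CompleteSpace X] {J : Set ℝ} (P : ℕ → ℝ → X) (hP : ∀ n, BUC J (P n)) {K : ℝ} (hK : 0 ≤ K)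
    (T : ℕ → ℝ) (hTm : Monotone T)
    (hT : ∀ n, ∀ t ∈ J, T n ≤ |t| → ‖P (n + 1) t - P n t‖ ≤ K * (1 / 2) ^ n) :
    ∃ u : ℝ → X, BUC J u ∧ ∀ N, ∀ t ∈ J, T N + 1 ≤ |t| → ‖u t - P (N + 1) t‖ ≤ K * (1 / 2) ^ N := by
  let c : ℕ → ℝ → ℝ := fun n t => max 0 (min 1 (|t| - T n))
  let g : ℕ → ℝ → X := fun n t => c n t • (P (n + 1) t - P n t)
  have hg : ∀ n, BUC J (g n) := fun n => ((hP (n + 1)).sub (hP n)).cut (T n)
  have hgb : ∀ n, ∀ t ∈ J, ‖g n t‖ ≤ K * (1 / 2) ^ n := by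
    intro n t ht
    simp only [g, c]
    rw [norm_smul, Real.norm_eq_abs, abs_of_nonneg (le_max_left _ _)]
    by_cases h : T n ≤ |t|
    · calc _ ≤ 1 * ‖P (n + 1) t - P n t‖ :=
            mul_le_mul_of_nonneg_right (max_le zero_le_one (min_le_left _ _)) (norm_nonneg _)
        _ ≤ _ := by rw [one_mul]; exact hT n t ht h
    · push Not at h
      have : max 0 (min 1 (|t| - T n)) = 0 := by
        apply max_eq_left
        exact (min_le_right _ _).trans (by linarith)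
      rw [this, zero_mul]
      positivity
  have hsum : Summable (fun n : ℕ => K * (1 / 2 : ℝ) ^ n) :=
    (summable_geometric_of_lt_one (by norm_num) (by norm_num)).mul_left K
  have hsumg : ∀ t ∈ J, Summable (fun n => g n t) := fun t ht =>
    Summable.of_norm_bounded hsum (fun n => hgb n t ht)
  have huc : UniformContinuousOn (fun t => ∑' n, g n t) J := by
    refine TendstoUniformlyOn.uniformContinuousOn (tendstoUniformlyOn_tsum_nat hsum
      (fun n t ht => hgb n t ht)) (Frequently.of_forall fun N => ?_)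
    induction N with
    | zero => simpa using (uniformContinuous_const (b := (0 : X))).uniformContinuousOn (s := J)
    | succ N ih =>
      simp only [Finset.sum_range_succ]
      exact uniformContinuousOn_iff_restrict.2 ((uniformContinuousOn_iff_restrict.1 ih).add
        (uniformContinuousOn_iff_restrict.1 (hg N).1))
  have hbd : ∃ C, ∀ t ∈ J, ‖∑' n, g n t‖ ≤ C := by
    refine ⟨∑' n : ℕ, K * (1 / 2 : ℝ) ^ n, fun t ht => ?_⟩
    exact tsum_of_norm_bounded hsum.hasSum (fun n => hgb n t ht)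
  refine ⟨fun t => P 0 t + ∑' n, g n t, (hP 0).add ⟨huc, hbd⟩, fun N t ht htN => ?_⟩
  have h1 : ∀ M ≤ N + 1, P 0 t + ∑ n ∈ Finset.range M, g n t = P M t := by
    intro M
    induction M with
    | zero => intro _; simp
    | succ M ih =>
      intro hM
      have hc : c M t = 1 := by
        have h3 : T M ≤ T N := hTm (by omega)
        simp only [c]
        rw [min_eq_left (by linarith)]
        exact max_eq_right zero_le_one
      rw [Finset.sum_range_succ, ← add_assoc, ih (by omega)]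
      simp only [g, hc, one_smul]
      abel
  have h2 := (hsumg t ht).sum_add_tsum_nat_add (N + 1)
  have h3 : P 0 t + ∑' n, g n t - P (N + 1) t = ∑' n, g (n + (N + 1)) t := by
    rw [← h2, ← h1 (N + 1) le_rfl]; abel
  rw [h3]
  have h4 : HasSum (fun n : ℕ => K * (1 / 2 : ℝ) ^ (n + (N + 1))) (K * (1 / 2) ^ N) := by
    have h5 := (hasSum_geometric_of_lt_one (by norm_num : (0:ℝ) ≤ 1 / 2) (by norm_num)).mul_left
      (K * (1 / 2 : ℝ) ^ (N + 1))
    have e1 : (fun n : ℕ => K * (1 / 2 : ℝ) ^ (n + (N + 1))) =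
        fun n : ℕ => K * (1 / 2) ^ (N + 1) * (1 / 2) ^ n := by
      funext n; rw [pow_add (1 / 2 : ℝ) n (N + 1)]; ring
    have e2 : K * (1 / 2 : ℝ) ^ N = K * (1 / 2) ^ (N + 1) * (1 - 1 / 2)⁻¹ := by
      rw [pow_succ]; norm_num; ring
    rw [e1, e2]
    exact h5
  exact tsum_of_norm_bounded h4 (fun n => hgb _ t ht)

lemma InSum_of_good [CompleteSpace X] {J : Set ℝ} (hJ : IsUpperSet J) (hne : J.Nonempty)
    {θ θ' : ℝ → 𝕜} (hO : Osc X J θ θ') {G : ℝ → X} (hG : Continuous G) {C : ℝ} (hC : 0 ≤ C)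
    (hb : ∀ t ∈ J, ‖G t‖ ≤ C) (hgood : ∀ ε > 0, ∃ δ > 0, Far J (Er θ θ' δ G) ε) : InSum J θ G := by
  obtain ⟨C1, hC10, hC1⟩ := hO.b1
  obtain ⟨C2, hC20, hC2⟩ := hO.b2
  have hc1 := hO.c1
  have hc2 := hO.c2
  have h1 : ∀ n : ℕ, ∃ δ > 0, Far J (Er θ θ' δ G) ((1 / 2 : ℝ) ^ n) := fun n => hgood _ (by positivity)
  choose δ hδ hE using h1
  let P : ℕ → ℝ → X := fun n => Avg (δ n) G
  let Q : ℕ → ℝ → X := fun n => Avg (δ n) (fun s => θ' s • G s)
  have k0 : Continuous (fun s => θ' s • G s) := by fun_prop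
  have hPc : ∀ n, Continuous (P n) := fun n => continuous_avg hG _
  have hQc : ∀ n, Continuous (Q n) := fun n => continuous_avg k0 _
  have hPb : ∀ n, BUC J (P n) := fun n => BUC_avg hJ hG hC hb (hδ n)
  have hQb : ∀ n, BUC J (Q n) := fun n => BUC_avg hJ k0 (C := C2 * C) (by positivity)
    (fun t ht => by rw [norm_smul]; exact mul_le_mul (hC2 t) (hb t ht) (norm_nonneg _) hC20) (hδ n)
  have hEr : ∀ n t, Er θ θ' (δ n) G t = G t - P n t - θ t • Q n t := fun n t => rfl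
  let K : ℝ := 2 * C2 + 3
  have hK : 0 ≤ K := by positivity
  have hD : ∀ n, Far J (fun t => P (n + 1) t - P n t) (K * (1 / 2) ^ n) ∧
      Far J (fun t => Q (n + 1) t - Q n t) (K * (1 / 2) ^ n) := by
    intro n
    have a1 : Far J (fun t => (P (n + 1) t - P n t) + θ t • (Q (n + 1) t - Q n t))
        ((1 / 2 : ℝ) ^ n + (1 / 2) ^ (n + 1)) := by
      refine ((hE n).sub (hE (n + 1))).congr (fun t _ => ?_)
      rw [hEr, hEr, smul_sub]; abel
    have hpos : (0:ℝ) < (1 / 2) ^ n := by positivity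
    obtain ⟨b1, b2⟩ := sep_small hJ hO hC20 hC2 ((hPc (n + 1)).sub (hPc n))
      ((hQc (n + 1)).sub (hQc n)) ((hPb (n + 1)).sub (hPb n)) ((hQb (n + 1)).sub (hQb n)) hpos a1
    have hpow : (1 / 2 : ℝ) ^ (n + 1) = (1 / 2) ^ n / 2 := by rw [pow_succ]; ring
    constructor
    · refine b1.mono ?_
      rw [hpow]
      simp only [K]
      nlinarith [mul_nonneg hC20 hpos.le]
    · refine b2.mono ?_
      rw [hpow]
      simp only [K]
      nlinarith [mul_nonneg hC20 hpos.le]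
  choose TP hTP using fun n => (hD n).1
  choose TQ hTQ using fun n => (hD n).2
  choose TE hTE using hE
  let T : ℕ → ℝ := fun n => ∑ k ∈ Finset.range (n + 1), (|TP k| + |TQ k| + |TE k|)
  have hTm : Monotone T := by
    apply monotone_nat_of_le_succ
    intro n
    simp only [T]
    rw [Finset.sum_range_succ _ (n + 1)]
    have : 0 ≤ |TP (n + 1)| + |TQ (n + 1)| + |TE (n + 1)| := by positivity
    linarith
  have hTge : ∀ n, |TP n| + |TQ n| + |TE n| ≤ T n := by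
    intro n
    simp only [T]
    rw [Finset.sum_range_succ]
    have : 0 ≤ ∑ k ∈ Finset.range n, (|TP k| + |TQ k| + |TE k|) :=
      Finset.sum_nonneg fun k _ => by positivity
    linarith
  obtain ⟨u, hu, hu'⟩ := glue P hPb hK T hTm (fun n t ht h => hTP n t ht (by
    have := hTge n; have := le_abs_self (TP n); have := abs_nonneg (TQ n)
    have := abs_nonneg (TE n); linarith))
  obtain ⟨v, hv, hv'⟩ := glue Q hQb hK T hTm (fun n t ht h => hTQ n t ht (by
    have := hTge n; have := le_abs_self (TQ n); have := abs_nonneg (TP n)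
    have := abs_nonneg (TE n); linarith))
  obtain ⟨u1, cu, bu, eu⟩ := hu.exists_cont hJ hne
  obtain ⟨v1, cv, bv, ev⟩ := hv.exists_cont hJ hne
  let R : ℝ → X := fun t => G t - u1 t - θ t • v1 t
  have hRc : Continuous R := by simp only [R]; fun_prop
  have hRf : ∀ ε > 0, Far J R ε := by
    intro ε hε
    obtain ⟨N, hN⟩ : ∃ N : ℕ, (1 + K + C1 * K) * (1 / 2 : ℝ) ^ N ≤ ε := by
      have h2 : Tendsto (fun N : ℕ => (1 + K + C1 * K) * (1 / 2 : ℝ) ^ N) atTop (𝓝 0) := by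
        have := (tendsto_pow_atTop_nhds_zero_of_lt_one (r := (1 / 2 : ℝ)) (by norm_num)
          (by norm_num)).const_mul (1 + K + C1 * K)
        simpa using this
      exact (h2.eventually (eventually_le_nhds hε)).exists
    refine ⟨T (N + 1) + 1, fun t ht htN => ?_⟩
    have hm := hTm (Nat.le_succ N)
    simp only [Nat.succ_eq_add_one] at hm
    have b1 : ‖u t - P (N + 1) t‖ ≤ K * (1 / 2) ^ N := hu' N t ht (by linarith)
    have b2 : ‖v t - Q (N + 1) t‖ ≤ K * (1 / 2) ^ N := hv' N t ht (by linarith)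
    have b3 : ‖Er θ θ' (δ (N + 1)) G t‖ ≤ (1 / 2) ^ (N + 1) := by
      apply hTE (N + 1) t ht
      have := hTge (N + 1); have := le_abs_self (TE (N + 1)); have := abs_nonneg (TP (N + 1))
      have := abs_nonneg (TQ (N + 1)); linarith
    have e : R t = Er θ θ' (δ (N + 1)) G t - (u t - P (N + 1) t) - θ t • (v t - Q (N + 1) t) := by
      simp only [R]
      rw [eu ht, ev ht, hEr, smul_sub]; abel
    rw [e]
    have b4 : ‖θ t • (v t - Q (N + 1) t)‖ ≤ C1 * (K * (1 / 2) ^ N) := by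
      rw [norm_smul]
      exact mul_le_mul (hC1 t) b2 (norm_nonneg _) hC10
    have b5 : (1 / 2 : ℝ) ^ (N + 1) ≤ (1 / 2) ^ N := by
      apply pow_le_pow_of_le_one (by norm_num) (by norm_num); omega
    calc _ ≤ (1 / 2 : ℝ) ^ (N + 1) + K * (1 / 2) ^ N + C1 * (K * (1 / 2) ^ N) :=
          (norm_sub_le _ _).trans (add_le_add ((norm_sub_le _ _).trans (add_le_add b3 b1)) b4)
      _ ≤ (1 + K + C1 * K) * (1 / 2 : ℝ) ^ N := by nlinarith
      _ ≤ ε := hN
  have hRb := BUC_of_far hRc hRf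
  refine ⟨fun t => u1 t + R t, v1, bu.add hRb, bv, fun t _ => ?_⟩
  simp only [R]; abel

/-- a function with differences in the sum space agrees on `J` with a continuous function, and has
uniformly bounded differences -/
lemma cont_rep [CompleteSpace X] {J : Set ℝ} (hJ : IsUpperSet J)
    (hne : J.Nonempty) {θ θ' : ℝ → 𝕜} (hO : Osc X J θ θ') {f : ℝ → X} (hL : L1loc J f)
    (hA : ∀ a > 0, InSum J θ (Diff a f)) : ∃ F : ℝ → X, Continuous F ∧ EqOn F f J ∧
      (∀ h : ℝ, ∃ C : ℝ, ∀ s, 0 ≤ s → s ≤ h → ∀ t ∈ J, ‖Diff s F t‖ ≤ C) := by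
  obtain ⟨C1, hC10, hC1⟩ := hO.b1
  have hc1 := hO.c1
  have hcc : ∀ s > 0, ContinuousOn (Diff s f) J := by
    intro s hs
    obtain ⟨u, v, cu, cv, bu, bv, he⟩ := (hA s hs).cont hJ hne
    exact ContinuousOn.congr (by fun_prop) he
  have hbb : ∀ s > 0, ∃ C : ℝ, ∀ t ∈ J, ‖Diff s f t‖ ≤ C := by
    intro s hs
    obtain ⟨u, v, ⟨_, Cu, bu⟩, ⟨_, Cv, bv⟩, he⟩ := hA s hs
    refine ⟨Cu + C1 * |Cv|, fun t ht => ?_⟩
    rw [he t ht]
    refine (norm_add_le _ _).trans (add_le_add (bu t ht) ?_)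
    rw [norm_smul]
    exact mul_le_mul (hC1 t) ((bv t ht).trans (le_abs_self _)) (norm_nonneg _) hC10
  have hb : ∀ h : ℝ, ∃ C : ℝ, ∀ s, 0 ≤ s → s ≤ h → ∀ t ∈ J, ‖Diff s f t‖ ≤ C := by
    intro h
    obtain ⟨C, hC⟩ := UB (fun _ : Unit => f) hJ (fun _ => hL) (fun s hs _ => hcc s hs)
      (fun s hs => by
        obtain ⟨C, hC⟩ := hbb s hs
        exact ⟨C, fun _ => hC⟩) h
    exact ⟨C, fun s h0 h1 => hC s h0 h1 ()⟩
  have hu : ∀ a > 0, ∀ R, UniformContinuousOn (Diff a f) (J ∩ Icc (-R) R) := by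
    intro a ha R
    obtain ⟨u, v, cu, cv, bu, bv, he⟩ := (hA a ha).cont hJ hne
    have h1 : UniformContinuousOn (fun t => u t + θ t • v t) (Icc (-R) R) :=
      isCompact_Icc.uniformContinuousOn_of_continuous (by fun_prop)
    exact (h1.mono inter_subset_right).congr (fun t ht => (he ht.1).symm)
  have hbl : ∀ h R : ℝ, ∃ C : ℝ, ∀ s, 0 ≤ s → s ≤ h → ∀ t ∈ J, |t| ≤ R → ‖Diff s f t‖ ≤ C := by
    intro h R
    obtain ⟨C, hC⟩ := hb h
    exact ⟨C, fun s h0 h1 t ht _ => hC s h0 h1 t ht⟩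
  obtain ⟨F, hF, hFf⟩ := exists_ext hJ hne (uc_of_diff hJ hne hL hbl hu)
  refine ⟨F, hF, hFf, fun h => ?_⟩
  obtain ⟨C, hC⟩ := hb h
  refine ⟨C, fun s h0 h1 t ht => ?_⟩
  have e : Diff s F t = Diff s f t := by
    simp only [Diff]
    rw [hFf ht, hFf (hJ (by linarith) ht)]
  rw [e]; exact hC s h0 h1 t ht

lemma avg_congr {J : Set ℝ} (hJ : IsUpperSet J) {f F : ℝ → X} (h : EqOn F f J) {d : ℝ}
    (hd : 0 < d) {t : ℝ} (ht : t ∈ J) : Avg d F t = Avg d f t := by
  unfold Avg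
  congr 1
  apply intervalIntegral.integral_congr
  intro s hs
  rw [uIcc_of_le (by linarith)] at hs
  exact h (hJ hs.1 ht)

omit [NormedSpace ℝ X] in
lemma BUC.neg {J : Set ℝ} {u : ℝ → X} (bu : BUC J u) : BUC J (fun t => -u t) := by
  have := (BUC.sub (u := fun _ : ℝ => (0 : X)) (J := J)
    ⟨uniformContinuous_const.uniformContinuousOn, 0, fun t _ => by simp⟩ bu)
  simpa using this

/-- Theorem B. -/
theorem thmB [CompleteSpace X] [IsScalarTower ℝ 𝕜 X] {J : Set ℝ} (hJ : IsUpperSet J)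
    (hne : J.Nonempty) {θ θ' : ℝ → 𝕜} (hO : Osc X J θ θ') {f : ℝ → X} (hL : L1loc J f)
    (hA : ∀ a > 0, InSum J θ (Diff a f)) {h : ℝ} (hh : 0 < h) :
    InSum J θ (fun t => f t - Avg h f t) := by
  obtain ⟨F, hF, hFf, hb'⟩ := cont_rep hJ hne hO hL hA
  have hDiff : ∀ s, 0 ≤ s → EqOn (Diff s F) (Diff s f) J := by
    intro s hs t ht
    simp only [Diff]
    rw [hFf ht, hFf (hJ (by linarith) ht)]
  have hA' : ∀ a > 0, InSum J θ (Diff a F) := by
    intro a ha
    obtain ⟨u, v, bu, bv, he⟩ := hA a ha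
    exact ⟨u, v, bu, bv, fun t ht => by rw [hDiff a ha.le ht, he t ht]⟩
  obtain ⟨C, hC⟩ := hb' h
  have hCnn : 0 ≤ C := by
    obtain ⟨t0, ht0⟩ := hne
    exact (norm_nonneg _).trans (hC 0 le_rfl hh.le t0 ht0)
  have hGb : ∀ t ∈ J, ‖GG h F t‖ ≤ C := by
    intro t ht
    unfold GG
    rw [norm_smul, norm_inv, Real.norm_eq_abs, abs_of_pos hh, inv_mul_le_iff₀ hh]
    have : ‖∫ s in (0:ℝ)..h, Diff s F t‖ ≤ C * |h - 0| := by
      apply intervalIntegral.norm_integral_le_of_norm_le_const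
      intro s hs
      rw [uIoc_of_le hh.le] at hs
      exact hC s hs.1.le hs.2 t ht
    rw [sub_zero, abs_of_pos hh] at this
    linarith
  obtain ⟨u, v, bu, bv, he⟩ := InSum_of_good hJ hne hO (continuous_GG hF hh) hCnn hGb
    (fun ε hε => exists_good hJ hne hO hF hA' hb' hh hε)
  refine ⟨fun t => -u t, fun t => -v t, bu.neg, bv.neg, fun t ht => ?_⟩
  have h1 := he t ht
  rw [GG_eq hF hh, avg_congr hJ hFf hh ht, hFf ht] at h1
  have h3 : f t - Avg h f t = -(Avg h f t - f t) := by abel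
  change f t - Avg h f t = -u t + θ t • (-v t)
  rw [h3, h1, smul_neg]; abel

/-- The Loomis condition from Theorem B. -/
theorem thmL [CompleteSpace X] [IsScalarTower ℝ 𝕜 X] {J : Set ℝ} (hJ : IsUpperSet J)
    (hne : J.Nonempty) {θ θ' : ℝ → 𝕜} (hO : Osc X J θ θ') {f : ℝ → X} (hL : L1loc J f)
    (hbd : ∃ C, ∀ t ∈ J, ‖f t‖ ≤ C) (hA : ∀ a > 0, InSum J θ (Diff a f)) : InSum J θ f := by
  obtain ⟨F, hF, hFf, -⟩ := cont_rep hJ hne hO hL hA
  obtain ⟨C, hC⟩ := hbd
  obtain ⟨u, v, bu, bv, he⟩ := thmB hJ hne hO hL hA one_pos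
  have hM : BUC J (Avg 1 F) := BUC_avg hJ hF (abs_nonneg C)
    (fun t ht => by rw [hFf ht]; exact (hC t ht).trans (le_abs_self _)) one_pos
  refine ⟨fun t => u t + Avg 1 F t, v, bu.add hM, bv, fun t ht => ?_⟩
  have h1 := he t ht
  simp only at h1 ⊢
  rw [avg_congr hJ hFf one_pos ht]
  have h2 : f t = (f t - Avg 1 f t) + Avg 1 f t := by abel
  rw [h2, h1]; abel

end Pool.Agent.R361.Dif
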