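import Mathlib
import Pool.Agent.R361.Dif.ThmB

set_option autoImplicit false
open Set Filter MeasureTheory Topology
open scoped Pointwise ENNReal

namespace Pool.Agent.R361.Dif

/-- `e^{i w s²}` -/
noncomputable def ee (w s : ℝ) : ℂ := Complex.exp (((w * s ^ 2 : ℝ) : ℂ) * Complex.I)

lemma continuous_ee (w : ℝ) : Continuous (ee w) := by unfold ee; fun_prop

lemma norm_ee (w s : ℝ) : ‖ee w s‖ = 1 := Complex.norm_exp_ofReal_mul_I _

lemma ee_re (w s : ℝ) : (ee w s).re = Real.cos (w * s ^ 2) := Complex.exp_ofReal_mul_I_re _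

lemma int_ee_bound {w : ℝ} (hw : w ≠ 0) {a b m : ℝ} (hab : a ≤ b) (hb : b ≤ a + 1) (hm : 1 ≤ m)
    (h : ∀ s ∈ Icc a b, m ≤ |s|) : ‖∫ s in a..b, ee w s‖ ≤ 2 / (|w| * m) := by
  have hw' : 0 < |w| := abs_pos.2 hw
  have hwc : (w : ℂ) ≠ 0 := by exact_mod_cast hw
  let Φ : ℝ → ℂ := fun s => ee w s * (2 * Complex.I * w * s)⁻¹
  have hs0 : ∀ s ∈ uIcc a b, s ≠ 0 := by
    intro s hs
    rw [uIcc_of_le hab] at hs
    have := h s hs
    intro h0
    rw [h0, abs_zero] at this
    linarith
  have hd : ∀ s ∈ uIcc a b, HasDerivAt Φ (ee w s - ee w s * (2 * Complex.I * w * s ^ 2)⁻¹) s := by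
    intro s hs
    have hs' : (s : ℂ) ≠ 0 := by exact_mod_cast hs0 s hs
    have h1 : HasDerivAt (fun s : ℝ => ee w s) (ee w s * (2 * w * s * Complex.I)) s := by
      unfold ee
      have h2 : HasDerivAt (fun s : ℝ => ((w * s ^ 2 : ℝ) : ℂ) * Complex.I)
          ((2 * w * s : ℂ) * Complex.I) s := by
        have h3 : HasDerivAt (fun s : ℝ => w * s ^ 2) (w * (2 * s)) s := by
          have := (hasDerivAt_pow 2 s).const_mul w
          simpa using this
        have h4 := (h3.ofReal_comp).mul_const Complex.I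
        refine h4.congr_deriv ?_
        push_cast; ring
      have h5 := h2.cexp
      simpa using h5
    have h2 : HasDerivAt (fun s : ℝ => (2 * Complex.I * w * s : ℂ)) (2 * Complex.I * w) s := by
      have := (hasDerivAt_id s).ofReal_comp.const_mul (2 * Complex.I * w : ℂ)
      simpa using this
    have hne : (2 * Complex.I * w * s : ℂ) ≠ 0 := by
      simp [hwc, hs', Complex.I_ne_zero]
    have h3 := h1.mul (h2.inv hne)
    refine h3.congr_deriv ?_
    simp only [Pi.inv_apply]
    field_simp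
    ring
  have hi1 : IntervalIntegrable (fun s => ee w s) volume a b :=
    (continuous_ee w).intervalIntegrable _ _
  have hi2 : IntervalIntegrable (fun s : ℝ => ee w s * (2 * Complex.I * w * s ^ 2)⁻¹) volume a b := by
    apply ContinuousOn.intervalIntegrable
    apply (continuous_ee w).continuousOn.mul
    apply ContinuousOn.inv₀ (by fun_prop)
    intro s hs
    have hs' : (s : ℂ) ≠ 0 := by exact_mod_cast hs0 s hs
    simp [hwc, hs', Complex.I_ne_zero]
  have hint := intervalIntegral.integral_eq_sub_of_hasDerivAt hd (hi1.sub hi2)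
  rw [intervalIntegral.integral_sub hi1 hi2] at hint
  have e : ∫ s in a..b, ee w s = Φ b - Φ a + ∫ s in a..b, ee w s * (2 * Complex.I * w * s ^ 2)⁻¹ := by
    rw [← hint]; ring
  have hm0 : 0 < m := by linarith
  have hΦ : ∀ s ∈ Icc a b, ‖Φ s‖ ≤ 1 / (2 * |w| * m) := by
    intro s hs
    simp only [Φ]
    rw [norm_mul, norm_ee, one_mul, norm_inv]
    simp only [norm_mul, Complex.norm_real, Complex.norm_I, Real.norm_eq_abs, Complex.norm_ofNat]
    rw [one_div]
    apply inv_anti₀ (by positivity)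
    have := h s hs
    have : |w| * m ≤ |w| * |s| := mul_le_mul_of_nonneg_left this hw'.le
    nlinarith
  have hI : ‖∫ s in a..b, ee w s * (2 * Complex.I * w * s ^ 2)⁻¹‖ ≤ 1 / (2 * |w| * m) * |b - a| := by
    apply intervalIntegral.norm_integral_le_of_norm_le_const
    intro s hs
    rw [uIoc_of_le hab] at hs
    have hs' := h s ⟨hs.1.le, hs.2⟩
    rw [norm_mul, norm_ee, one_mul, norm_inv]
    simp only [norm_mul, Complex.norm_real, Complex.norm_I, Real.norm_eq_abs, norm_pow, Complex.norm_ofNat]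
    rw [one_div]
    apply inv_anti₀ (by positivity)
    have h2 : m ≤ |s| ^ 2 := by nlinarith [abs_nonneg s]
    have : |w| * m ≤ |w| * |s| ^ 2 := mul_le_mul_of_nonneg_left h2 hw'.le
    nlinarith
  have hba : |b - a| ≤ 1 := by rw [abs_of_nonneg (by linarith)]; linarith
  have hI' : ‖∫ s in a..b, ee w s * (2 * Complex.I * w * s ^ 2)⁻¹‖ ≤ 1 / (2 * |w| * m) := by
    refine hI.trans ?_
    calc 1 / (2 * |w| * m) * |b - a| ≤ 1 / (2 * |w| * m) * 1 :=
          mul_le_mul_of_nonneg_left hba (by positivity)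
      _ = _ := mul_one _
  rw [e]
  calc _ ≤ ‖Φ b‖ + ‖Φ a‖ + ‖∫ s in a..b, ee w s * (2 * Complex.I * w * s ^ 2)⁻¹‖ :=
        (norm_add_le _ _).trans (add_le_add (norm_sub_le _ _) le_rfl)
    _ ≤ 1 / (2 * |w| * m) + 1 / (2 * |w| * m) + 1 / (2 * |w| * m) :=
        add_le_add (add_le_add (hΦ b (right_mem_Icc.2 hab)) (hΦ a (left_mem_Icc.2 hab))) hI'
    _ = 3 / 2 / (|w| * m) := by field_simp; norm_num
    _ ≤ 2 / (|w| * m) := by gcongr; norm_num

/-- the integrals over short intervals far out are small -/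
def Prim {𝕜 : Type*} [RCLike 𝕜] (θ : ℝ → 𝕜) : Prop :=
  ∀ η > 0, ∃ T : ℝ, ∀ a, T ≤ |a| → ∀ b, a ≤ b → b ≤ a + 1 → ‖∫ s in a..b, θ s‖ ≤ η

lemma prim_ee {w : ℝ} (hw : w ≠ 0) : Prim (ee w) := by
  intro η hη
  have hw' : 0 < |w| := abs_pos.2 hw
  refine ⟨2 / (|w| * η) + 2, fun a ha b hab hb => ?_⟩
  have h0 : 0 < 2 / (|w| * η) := by positivity
  have h1 : ∀ s ∈ Icc a b, |a| - 1 ≤ |s| := by
    intro s hs
    have := abs_sub_abs_le_abs_sub a s
    have h2 : |a - s| ≤ 1 := by
      rw [abs_sub_comm, abs_of_nonneg (by linarith [hs.1])]; linarith [hs.2]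
    linarith
  refine (int_ee_bound hw hab hb (m := |a| - 1) (by linarith) h1).trans ?_
  rw [div_le_iff₀ (by have : 0 < |a| - 1 := by linarith
                      positivity)]
  have h3 : 2 / (|w| * η) ≤ |a| - 1 := by linarith
  rw [div_le_iff₀ (by positivity)] at h3
  nlinarith

lemma prim_cos {w : ℝ} (hw : w ≠ 0) : Prim (fun s : ℝ => Real.cos (w * s ^ 2)) := by
  intro η hη
  obtain ⟨T, hT⟩ := prim_ee hw η hη
  refine ⟨T, fun a ha b hab hb => ?_⟩
  have h1 := hT a ha b hab hb
  have h2 := Complex.reCLM.intervalIntegral_comp_comm ((continuous_ee w).intervalIntegrable a b (μ := volume))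
  simp only [Complex.reCLM_apply, ee_re] at h2
  rw [h2, Real.norm_eq_abs]
  exact (Complex.abs_re_le_norm _).trans h1

variable {𝕜 X : Type*} [RCLike 𝕜] [NormedAddCommGroup X] [NormedSpace ℝ X] [NormedSpace 𝕜 X]

lemma far_osc [IsScalarTower ℝ 𝕜 X] [CompleteSpace X] {J : Set ℝ} (hJ : IsUpperSet J) {θ : ℝ → 𝕜}
    (hθ : Continuous θ)
    {B : ℝ} (hB0 : 0 ≤ B) (hB : ∀ t, ‖θ t‖ ≤ B) (hp : Prim θ) {v : ℝ → X} (hv : Continuous v)
    (hv' : BUC J v) {d : ℝ} (hd : 0 < d) {ε : ℝ} (hε : 0 < ε) :
    Far J (Avg d (fun s => θ s • v s)) ε := by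
  obtain ⟨hu, C, hC⟩ := hv'
  obtain ⟨δ, hδ, hδ'⟩ := Metric.uniformContinuousOn_iff.1 hu (ε / (2 * (B + 1))) (by positivity)
  obtain ⟨N, hN⟩ := exists_nat_gt (max (d / δ) d)
  have hN1 : d / δ < N := (le_max_left _ _).trans_lt hN
  have hN2 : d < N := (le_max_right _ _).trans_lt hN
  have hN0 : (0 : ℝ) < N := hd.trans hN2
  have hr0 : 0 < d / N := by positivity
  have hr1 : d / N ≤ 1 := by rw [div_le_one hN0]; exact hN2.le
  have hr2 : d / N < δ := by
    rw [div_lt_iff₀ hδ] at hN1
    rw [div_lt_iff₀ hN0]; linarith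
  obtain ⟨T, hT⟩ := hp (ε * d / (2 * N * (|C| + 1))) (by positivity)
  refine ⟨T + d, fun t ht htT => ?_⟩
  let x : ℕ → ℝ := fun j => t + j * (d / N)
  have hx0 : x 0 = t := by simp [x]
  have hxN : x N = t + d := by simp only [x]; field_simp
  have hxs : ∀ j, x (j + 1) = x j + d / N := by intro j; simp only [x]; push_cast; ring
  have hc : Continuous (fun s => θ s • v s) := by fun_prop
  have hsum : ∑ j ∈ Finset.range N, ∫ s in (x j)..(x (j + 1)), θ s • v s =
      ∫ s in t..(t + d), θ s • v s := by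
    rw [intervalIntegral.sum_integral_adjacent_intervals (fun k _ => hc.intervalIntegrable _ _),
      hx0, hxN]
  have hpiece : ∀ j ∈ Finset.range N, ‖∫ s in (x j)..(x (j + 1)), θ s • v s‖ ≤
      ε * d / (2 * N * (|C| + 1)) * |C| + B * (ε / (2 * (B + 1))) * (d / N) := by
    intro j hj
    have hj' : (j : ℝ) ≤ N := by exact_mod_cast (Finset.mem_range.1 hj).le
    have hle : x j ≤ x (j + 1) := by rw [hxs]; linarith
    have hxJ : x j ∈ J := hJ (by simp only [x]; have : 0 ≤ (j : ℝ) * (d / N) := by positivity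
                                 linarith) ht
    have e : ∫ s in (x j)..(x (j + 1)), θ s • v s =
        (∫ s in (x j)..(x (j + 1)), θ s) • v (x j) +
          ∫ s in (x j)..(x (j + 1)), θ s • (v s - v (x j)) := by
      rw [← intervalIntegral.integral_smul_const, ← intervalIntegral.integral_add]
      · congr 1; funext s; rw [smul_sub]; abel
      · exact (by fun_prop : Continuous (fun s => θ s • v (x j))).intervalIntegrable _ _
      · exact (by fun_prop : Continuous (fun s => θ s • (v s - v (x j)))).intervalIntegrable _ _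
    rw [e]
    refine (norm_add_le _ _).trans (add_le_add ?_ ?_)
    · rw [norm_smul]
      apply mul_le_mul _ ((hC _ hxJ).trans (le_abs_self _)) (norm_nonneg _) (by positivity)
      apply hT _ _ _ hle (by rw [hxs]; linarith)
      have h1 : |t| - |x j| ≤ |t - x j| := abs_sub_abs_le_abs_sub _ _
      have h2 : |t - x j| ≤ d := by
        have : t - x j = -(j * (d / N)) := by simp only [x]; ring
        rw [this, abs_neg, abs_of_nonneg (by positivity)]
        calc (j : ℝ) * (d / N) ≤ N * (d / N) := mul_le_mul_of_nonneg_right hj' (by positivity)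
          _ = d := by field_simp
      linarith
    · have h3 : ‖∫ s in (x j)..(x (j + 1)), θ s • (v s - v (x j))‖ ≤
          B * (ε / (2 * (B + 1))) * |x (j + 1) - x j| := by
        apply intervalIntegral.norm_integral_le_of_norm_le_const
        intro s hs
        rw [uIoc_of_le hle] at hs
        rw [norm_smul]
        apply mul_le_mul (hB s) _ (norm_nonneg _) hB0
        rw [← dist_eq_norm]
        refine (hδ' s (hJ hs.1.le hxJ) _ hxJ ?_).le
        rw [Real.dist_eq, abs_of_nonneg (by linarith [hs.1])]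
        have := hs.2
        rw [hxs] at this
        linarith
      have e3 : |x (j + 1) - x j| = d / N := by
        rw [hxs, add_sub_cancel_left, abs_of_pos hr0]
      rwa [e3] at h3
  have htot : ‖∫ s in t..(t + d), θ s • v s‖ ≤ ε * d := by
    rw [← hsum]
    calc _ ≤ ∑ j ∈ Finset.range N, ‖∫ s in (x j)..(x (j + 1)), θ s • v s‖ := norm_sum_le _ _
      _ ≤ ∑ j ∈ Finset.range N, (ε * d / (2 * N * (|C| + 1)) * |C| +
          B * (ε / (2 * (B + 1))) * (d / N)) := Finset.sum_le_sum hpiece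
      _ = N * (ε * d / (2 * N * (|C| + 1)) * |C| + B * (ε / (2 * (B + 1))) * (d / N)) := by
        rw [Finset.sum_const, Finset.card_range, nsmul_eq_mul]
      _ = ε * d / 2 * (|C| / (|C| + 1)) + ε * d / 2 * (B / (B + 1)) := by
        have e1 : N * (ε * d / (2 * N * (|C| + 1)) * |C|) = ε * d / 2 * (|C| / (|C| + 1)) := by
          field_simp
        have e2 : N * (B * (ε / (2 * (B + 1))) * (d / N)) = ε * d / 2 * (B / (B + 1)) := by
          field_simp
        rw [mul_add, e1, e2]
      _ ≤ ε * d / 2 * 1 + ε * d / 2 * 1 := by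
        have h1 : |C| / (|C| + 1) ≤ 1 := by
          rw [div_le_one (by positivity)]; linarith
        have h2 : B / (B + 1) ≤ 1 := by
          rw [div_le_one (by positivity)]; linarith
        gcongr
      _ = ε * d := by ring
  unfold Avg
  rw [norm_smul, norm_inv, Real.norm_eq_abs, abs_of_pos hd, inv_mul_le_iff₀ hd]
  linarith

/-- `θ = cos t²`, `θ' = 2 cos t²` -/
lemma osc_cos (X : Type*) [NormedAddCommGroup X] [NormedSpace ℝ X] [CompleteSpace X] {J : Set ℝ}
    (hJ : IsUpperSet J) :
    Osc X J (fun t : ℝ => Real.cos (t ^ 2)) (fun t : ℝ => 2 * Real.cos (t ^ 2)) where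
  c1 := by fun_prop
  c2 := by fun_prop
  b1 := ⟨1, zero_le_one, fun t => by rw [Real.norm_eq_abs]; exact Real.abs_cos_le_one _⟩
  b2 := ⟨2, by norm_num, fun t => by
    rw [norm_mul, Real.norm_eq_abs, Real.norm_eq_abs, abs_two]
    have := Real.abs_cos_le_one (t ^ 2)
    linarith⟩
  h1 := fun d hd v hv hv' ε hε => by
    have hp := prim_cos (w := 1) one_ne_zero
    simp only [one_mul] at hp
    exact far_osc hJ (by fun_prop) zero_le_one
      (fun t => by rw [Real.norm_eq_abs]; exact Real.abs_cos_le_one _) hp hv hv' hd hε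
  h2 := fun d hd v hv hv' ε hε => by
    have hp := prim_cos (w := 1) one_ne_zero
    simp only [one_mul] at hp
    have hp' : Prim (fun t : ℝ => 2 * Real.cos (t ^ 2)) := by
      intro η hη
      obtain ⟨T, hT⟩ := hp (η / 2) (by positivity)
      refine ⟨T, fun a ha b hab hb => ?_⟩
      have h1 := hT a ha b hab hb
      rw [intervalIntegral.integral_const_mul, norm_mul, Real.norm_eq_abs, abs_two]
      linarith
    exact far_osc hJ (by fun_prop) (B := 2) (by norm_num) (fun t => by
      rw [norm_mul, Real.norm_eq_abs, Real.norm_eq_abs, abs_two]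
      have := Real.abs_cos_le_one (t ^ 2)
      linarith) hp' hv hv' hd hε
  h3 := fun d hd v hv hv' ε hε => by
    have hp := prim_cos (w := 2) two_ne_zero
    have e : (fun s : ℝ => (2 * Real.cos (s ^ 2) * Real.cos (s ^ 2) - 1) • v s) =
        fun s : ℝ => Real.cos (2 * s ^ 2) • v s := by
      funext s
      rw [Real.cos_two_mul]; congr 1; ring
    rw [e]
    exact far_osc hJ (by fun_prop) zero_le_one
      (fun t => by rw [Real.norm_eq_abs]; exact Real.abs_cos_le_one _) hp hv hv' hd hε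

end Pool.Agent.R361.Dif
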