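import Mathlib
import Pool.Agent.R361.Dif.Main
import Pool.Agent.R361.Dif.Oscil

set_option autoImplicit false
open Set Filter MeasureTheory Topology
open scoped Pointwise ENNReal

namespace Pool.Agent.R361.Dif

section uc

variable {X : Type*} [NormedAddCommGroup X]

/-- increments of uniformly continuous functions over bounded distances are bounded -/
lemma uc_incr {J : Set ℝ} (hJ : IsUpperSet J) {u : ℝ → X} (hu : UniformContinuousOn u J) (R : ℝ) :
    ∃ C : ℝ, 0 ≤ C ∧ ∀ t ∈ J, ∀ s, 0 ≤ s → s ≤ R → ‖u (t + s) - u t‖ ≤ C := by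
  obtain ⟨δ, hδ, h⟩ := Metric.uniformContinuousOn_iff.1 hu 1 one_pos
  obtain ⟨m, hm⟩ := exists_nat_gt (|R| / δ)
  have hm0 : (0:ℝ) < m := lt_of_le_of_lt (by positivity) hm
  refine ⟨m, hm0.le, fun t ht s hs0 hs1 => ?_⟩
  have e : s = m * (s / m) := by field_simp
  have hr0 : 0 ≤ s / m := by positivity
  have hr : s / m < δ := by
    rw [div_lt_iff₀ hδ] at hm
    rw [div_lt_iff₀ hm0]
    have := le_abs_self R
    linarith
  have h1 : u (t + s) - u t = Diff (m * (s / m)) u t := by rw [← e]; rfl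
  rw [h1, Diff_telescope]
  calc ‖∑ j ∈ Finset.range m, Diff (s / m) u (t + j * (s / m))‖
      ≤ ∑ j ∈ Finset.range m, ‖Diff (s / m) u (t + j * (s / m))‖ := norm_sum_le _ _
    _ ≤ ∑ j ∈ Finset.range m, (1:ℝ) := by
      apply Finset.sum_le_sum
      intro j _
      have hj : 0 ≤ (j : ℝ) * (s / m) := by positivity
      have hx : t + j * (s / m) ∈ J := hJ (by linarith) ht
      have hy : t + j * (s / m) + s / m ∈ J := hJ (by linarith) hx
      have := h _ hy _ hx (by
        rw [Real.dist_eq, add_sub_cancel_left, abs_of_nonneg hr0]; exact hr)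
      rw [dist_eq_norm] at this
      exact this.le
    _ = m := by simp

/-- at most linear growth -/
lemma uc_linear {J : Set ℝ} (hJ : IsUpperSet J) (hne : J.Nonempty) {u : ℝ → X}
    (hu : UniformContinuousOn u J) : ∃ K : ℝ, 0 ≤ K ∧ ∀ t ∈ J, ‖u t‖ ≤ K * (1 + |t|) := by
  obtain ⟨C, hC0, hC⟩ := uc_incr hJ hu 1
  obtain ⟨t0, ht0⟩ := hne
  have key : ∀ t ∈ J, ∀ t' , t ≤ t' → ‖u t' - u t‖ ≤ (t' - t + 1) * C := by
    intro t ht t' htt
    set m := ⌊t' - t⌋₊ + 1 with hm
    have hm0 : (0:ℝ) < m := by positivity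
    have hm1 : t' - t < m := by rw [hm]; push_cast; exact Nat.lt_floor_add_one _
    have hm2 : (m : ℝ) ≤ t' - t + 1 := by
      rw [hm]; push_cast
      have := Nat.floor_le (show 0 ≤ t' - t by linarith)
      linarith
    have e : t' - t = m * ((t' - t) / m) := by field_simp
    have hr0 : 0 ≤ (t' - t) / m := div_nonneg (by linarith) hm0.le
    have hr1 : (t' - t) / m ≤ 1 := by rw [div_le_one hm0]; exact hm1.le
    have h1 : u t' - u t = Diff (m * ((t' - t) / m)) u t := by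
      rw [← e]; simp [Diff]
    rw [h1, Diff_telescope]
    calc _ ≤ ∑ j ∈ Finset.range m, ‖Diff ((t' - t) / m) u (t + j * ((t' - t) / m))‖ := norm_sum_le _ _
      _ ≤ ∑ j ∈ Finset.range m, C := by
        apply Finset.sum_le_sum
        intro j _
        have hj : 0 ≤ (j : ℝ) * ((t' - t) / m) := by positivity
        exact hC _ (hJ (by linarith) ht) _ hr0 hr1
      _ = m * C := by simp
      _ ≤ (t' - t + 1) * C := mul_le_mul_of_nonneg_right hm2 hC0
  refine ⟨‖u t0‖ + (|t0| + 1) * C, by positivity, fun t ht => ?_⟩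
  have h2 : ‖u t‖ ≤ ‖u t0‖ + (|t| + |t0| + 1) * C := by
    have a1 := le_abs_self t
    have a2 := neg_abs_le t
    have a3 := le_abs_self t0
    have a4 := neg_abs_le t0
    rcases le_total t0 t with h | h
    · have h3 := key t0 ht0 t h
      have e : u t = u t0 + (u t - u t0) := by abel
      rw [e]
      refine (norm_add_le _ _).trans (add_le_add le_rfl (h3.trans ?_))
      apply mul_le_mul_of_nonneg_right _ hC0
      linarith
    · have h3 := key t ht t0 h
      have e : u t = u t0 - (u t0 - u t) := by abel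
      rw [e]
      refine (norm_sub_le _ _).trans (add_le_add le_rfl (h3.trans ?_))
      apply mul_le_mul_of_nonneg_right _ hC0
      linarith
  refine h2.trans ?_
  have h3 : 0 ≤ ‖u t0‖ * |t| := by positivity
  have h4 : 0 ≤ |t0| * C * |t| := by positivity
  nlinarith

lemma uc_add {J : Set ℝ} {u v : ℝ → X} (h : UniformContinuousOn u J) (h' : UniformContinuousOn v J) :
    UniformContinuousOn (fun t => u t + v t) J :=
  uniformContinuousOn_iff_restrict.2 ((uniformContinuousOn_iff_restrict.1 h).add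
    (uniformContinuousOn_iff_restrict.1 h'))

lemma uc_sub {J : Set ℝ} {u v : ℝ → X} (h : UniformContinuousOn u J) (h' : UniformContinuousOn v J) :
    UniformContinuousOn (fun t => u t - v t) J :=
  uniformContinuousOn_iff_restrict.2 ((uniformContinuousOn_iff_restrict.1 h).sub
    (uniformContinuousOn_iff_restrict.1 h'))

lemma uc_shift {J : Set ℝ} (hJ : IsUpperSet J) {u : ℝ → X} (h : UniformContinuousOn u J) {b : ℝ}
    (hb : 0 ≤ b) : UniformContinuousOn (fun t => u (t + b)) J := by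
  rw [Metric.uniformContinuousOn_iff] at h ⊢
  intro ε hε
  obtain ⟨δ, hδ, h⟩ := h ε hε
  refine ⟨δ, hδ, fun t ht s hs hts => h _ (hJ (by linarith) ht) _ (hJ (by linarith) hs) ?_⟩
  rw [Real.dist_eq] at hts ⊢
  rwa [add_sub_add_right_eq_sub]

end uc

/-! ### Step 1 -/

/-- the factor `e^{i (b² + 2 t b)}` -/
noncomputable def ph (b t : ℝ) : ℂ := Complex.exp (((b ^ 2 + 2 * t * b : ℝ) : ℂ) * Complex.I)

lemma norm_ph (b t : ℝ) : ‖ph b t‖ = 1 := Complex.norm_exp_ofReal_mul_I _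

lemma ee_add (t b : ℝ) : ee 1 (t + b) = ee 1 t * ph b t := by
  unfold ee ph
  rw [← Complex.exp_add]
  congr 1
  push_cast; ring

lemma ee_ne (w t : ℝ) : ee w t ≠ 0 := Complex.exp_ne_zero _

lemma ph_sub_le (b t s : ℝ) (hb : 0 ≤ b) (hs : 0 ≤ s) : ‖ph b (t + s) - ph b t‖ ≤ 2 * s * b := by
  have e : ph b (t + s) - ph b t = ph b t * (Complex.exp (Complex.I * ((2 * s * b : ℝ) : ℂ)) - 1) := by
    unfold ph
    rw [mul_sub, mul_one, ← Complex.exp_add]
    congr 2
    push_cast; ring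
  rw [e, norm_mul, norm_ph, one_mul]
  refine (Real.norm_exp_I_mul_ofReal_sub_one_le).trans ?_
  rw [Real.norm_eq_abs, abs_of_nonneg (by positivity)]

/-- half-turn -/
lemma exists_half_turn (t : ℝ) (ht : 2 ≤ |t|) : ∃ s, 0 ≤ s ∧ s ≤ 2 ∧ s * |t| ≤ 4 ∧
    ee 1 (t + s) = -ee 1 t := by
  have hπ := Real.pi_pos
  have hπ4 := Real.pi_lt_four
  rcases le_or_gt 0 t with h0 | h0
  · rw [abs_of_nonneg h0] at ht ⊢
    have hsq : Real.sqrt (t ^ 2 + Real.pi) ^ 2 = t ^ 2 + Real.pi := Real.sq_sqrt (by positivity)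
    have hge : t ≤ Real.sqrt (t ^ 2 + Real.pi) := Real.le_sqrt_of_sq_le (by linarith)
    have hmul : (Real.sqrt (t ^ 2 + Real.pi) - t) * (Real.sqrt (t ^ 2 + Real.pi) + t) = Real.pi := by
      nlinarith
    have hs0 : 0 ≤ Real.sqrt (t ^ 2 + Real.pi) - t := by linarith
    have hst : (Real.sqrt (t ^ 2 + Real.pi) - t) * t ≤ 4 := by nlinarith
    refine ⟨Real.sqrt (t ^ 2 + Real.pi) - t, hs0, by nlinarith, hst, ?_⟩
    unfold ee
    have e : t + (Real.sqrt (t ^ 2 + Real.pi) - t) = Real.sqrt (t ^ 2 + Real.pi) := by ring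
    rw [e, hsq, one_mul, one_mul]
    push_cast
    rw [add_mul, Complex.exp_add, Complex.exp_pi_mul_I]
    ring
  · rw [abs_of_neg h0] at ht ⊢
    have hnn : 0 ≤ t ^ 2 - Real.pi := by nlinarith
    have hsq : Real.sqrt (t ^ 2 - Real.pi) ^ 2 = t ^ 2 - Real.pi := Real.sq_sqrt hnn
    have hsn := Real.sqrt_nonneg (t ^ 2 - Real.pi)
    have hle : Real.sqrt (t ^ 2 - Real.pi) ≤ -t := by
      apply Real.sqrt_le_iff.2
      constructor
      · linarith
      · nlinarith
    have hmul : (-t - Real.sqrt (t ^ 2 - Real.pi)) * (-t + Real.sqrt (t ^ 2 - Real.pi)) = Real.pi := by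
      nlinarith
    have hs0 : 0 ≤ -t - Real.sqrt (t ^ 2 - Real.pi) := by linarith
    have hst : (-t - Real.sqrt (t ^ 2 - Real.pi)) * (-t) ≤ 4 := by nlinarith
    refine ⟨-t - Real.sqrt (t ^ 2 - Real.pi), hs0, by nlinarith, hst, ?_⟩
    unfold ee
    have e : (t + (-t - Real.sqrt (t ^ 2 - Real.pi))) ^ 2 = t ^ 2 - Real.pi := by
      have : t + (-t - Real.sqrt (t ^ 2 - Real.pi)) = -Real.sqrt (t ^ 2 - Real.pi) := by ring
      rw [this, neg_sq, hsq]
    rw [e, one_mul, one_mul]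
    have e2 : Complex.exp (((t ^ 2 : ℝ) : ℂ) * Complex.I) =
        Complex.exp (((t ^ 2 - Real.pi : ℝ) : ℂ) * Complex.I) * Complex.exp (Real.pi * Complex.I) := by
      rw [← Complex.exp_add]
      congr 1
      push_cast; ring
    rw [e2, Complex.exp_pi_mul_I]
    ring

variable {X : Type*} [NormedAddCommGroup X] [NormedSpace ℂ X]

lemma W_bdd {J : Set ℝ} (hJ : IsUpperSet J) (hne : J.Nonempty) {ua ub uab va vb vab : ℝ → X}
    (hua : UniformContinuousOn ua J) (hub : UniformContinuousOn ub J)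
    (huab : UniformContinuousOn uab J) (hva : UniformContinuousOn va J)
    (hvb : UniformContinuousOn vb J) (hvab : UniformContinuousOn vab J) {b : ℝ} (hb : 0 ≤ b)
    (h : ∀ t ∈ J, uab t + ee 1 t • vab t =
      (ua (t + b) + ee 1 (t + b) • va (t + b)) + (ub t + ee 1 t • vb t)) :
    ∃ C : ℝ, ∀ t ∈ J, ‖vab t - vb t - ph b t • va (t + b)‖ ≤ C := by
  let U : ℝ → X := fun t => ua (t + b) + ub t - uab t
  let W : ℝ → X := fun t => vab t - vb t - ph b t • va (t + b)
  have hU : UniformContinuousOn U J := uc_sub (uc_add (uc_shift hJ hua hb) hub) huab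
  have hUW : ∀ t ∈ J, U t = ee 1 t • W t := by
    intro t ht
    have h1 := h t ht
    rw [ee_add, mul_smul] at h1
    simp only [U, W]
    have h2 : ee 1 t • vab t = (ua (t + b) + ee 1 t • ph b t • va (t + b)) +
      (ub t + ee 1 t • vb t) - uab t := by rw [← h1]; abel
    rw [smul_sub, smul_sub, h2]
    abel
  have hnorm : ∀ t ∈ J, ‖W t‖ = ‖U t‖ := by
    intro t ht
    rw [hUW t ht, norm_smul, norm_ee, one_mul]
  obtain ⟨KU, hKU0, hKU⟩ := uc_linear hJ hne hU
  obtain ⟨CU, hCU0, hCU⟩ := uc_incr hJ hU 2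
  obtain ⟨C1, hC10, hC1⟩ := uc_incr hJ hvab 2
  obtain ⟨C2, hC20, hC2⟩ := uc_incr hJ hvb 2
  obtain ⟨C3, hC30, hC3⟩ := uc_incr hJ hva 2
  obtain ⟨K, hK0, hK⟩ := uc_linear hJ hne hva
  refine ⟨KU * 3 + (CU + C1 + C2 + C3 + 2 * b * K * (10 + 2 * b)), fun t ht => ?_⟩
  change ‖W t‖ ≤ _
  rw [hnorm t ht]
  by_cases ht2 : |t| ≤ 2
  · have h1 := hKU t ht
    have h2 : KU * (1 + |t|) ≤ KU * 3 := mul_le_mul_of_nonneg_left (by linarith) hKU0
    have h3 : 0 ≤ CU + C1 + C2 + C3 + 2 * b * K * (10 + 2 * b) := by positivity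
    linarith
  · push Not at ht2
    obtain ⟨s, hs0, hs2, hst, hee⟩ := exists_half_turn t ht2.le
    have htsJ : t + s ∈ J := hJ (by linarith) ht
    have htbJ : t + b ∈ J := hJ (by linarith) ht
    have hsbJ : t + s + b ∈ J := hJ (by linarith) htsJ
    have e1 : U t + U (t + s) = ee 1 t • (W t - W (t + s)) := by
      rw [hUW t ht, hUW _ htsJ, hee, smul_sub (ee 1 t) (W t) (W (t + s)), neg_smul]; abel
    have e2 : (2 : ℝ) * ‖U t‖ ≤ ‖U t + U (t + s)‖ + ‖U (t + s) - U t‖ := by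
      have : (2 : ℂ) • U t = (U t + U (t + s)) - (U (t + s) - U t) := by
        rw [two_smul]; abel
      have h3 : ‖(2 : ℂ) • U t‖ = 2 * ‖U t‖ := by rw [norm_smul]; simp
      rw [← h3, this]
      exact norm_sub_le _ _
    have e3 : ‖U (t + s) - U t‖ ≤ CU := hCU t ht s hs0 hs2
    have e4 : ‖W t - W (t + s)‖ ≤ C1 + C2 + (2 * b * K * (10 + 2 * b) + C3) := by
      have e5 : W t - W (t + s) = -(vab (t + s) - vab t) + (vb (t + s) - vb t) +
          ((ph b (t + s) - ph b t) • va (t + s + b) + ph b t • (va (t + b + s) - va (t + b))) := by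
        simp only [W]
        have : t + b + s = t + s + b := by ring
        rw [this, sub_smul, smul_sub]
        abel
      rw [e5]
      refine (norm_add_le _ _).trans (add_le_add ((norm_add_le _ _).trans (add_le_add ?_ ?_)) ?_)
      · rw [norm_neg]; exact hC1 t ht s hs0 hs2
      · exact hC2 t ht s hs0 hs2
      · refine (norm_add_le _ _).trans (add_le_add ?_ ?_)
        · rw [norm_smul]
          have a1 := ph_sub_le b t s hb hs0
          have a2 := hK _ hsbJ
          have a3 : |t + s + b| ≤ |t| + s + b := by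
            calc |t + s + b| ≤ |t + s| + |b| := abs_add_le _ _
              _ ≤ |t| + |s| + |b| := by have := abs_add_le t s; linarith
              _ = |t| + s + b := by rw [abs_of_nonneg hs0, abs_of_nonneg hb]
          have a4 : ‖va (t + s + b)‖ ≤ K * (1 + |t| + s + b) :=
            a2.trans (mul_le_mul_of_nonneg_left (by linarith) hK0)
          calc _ ≤ (2 * s * b) * (K * (1 + |t| + s + b)) :=
                mul_le_mul a1 a4 (norm_nonneg _) (by positivity)
            _ = 2 * b * K * (s + s * |t| + s * s + s * b) := by ring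
            _ ≤ 2 * b * K * (10 + 2 * b) := by
              apply mul_le_mul_of_nonneg_left _ (by positivity)
              nlinarith
        · rw [norm_smul, norm_ph, one_mul]
          exact hC3 _ htbJ s hs0 hs2
    rw [e1, norm_smul, norm_ee, one_mul] at e2
    have h3 : 0 ≤ ‖U t‖ := norm_nonneg _
    have h4 : 0 ≤ KU * 3 := by positivity
    have h5 : 0 ≤ CU + C1 + C2 + C3 + 2 * b * K * (10 + 2 * b) := by positivity
    linarith

/-- the key step: `v_a` is bounded for small `a` -/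
lemma v_bdd_small {J : Set ℝ} (hJ : IsUpperSet J) (hne : J.Nonempty) {u v : ℝ → ℝ → X}
    (hu : ∀ a > 0, UniformContinuousOn (u a) J) (hv : ∀ a > 0, UniformContinuousOn (v a) J)
    (h : ∀ a > 0, ∀ b > 0, ∀ t ∈ J, u (a + b) t + ee 1 t • v (a + b) t =
      (u a (t + b) + ee 1 (t + b) • v a (t + b)) + (u b t + ee 1 t • v b t))
    {a : ℝ} (ha : 0 < a) (ha1 : a ≤ 1) : ∃ C : ℝ, ∀ t ∈ J, ‖v a t‖ ≤ C := by
  have hb : 0 < a / 2 := by positivity
  obtain ⟨C1, hC1⟩ := W_bdd hJ hne (hu a ha) (hu _ hb) (hu _ (by positivity)) (hv a ha) (hv _ hb)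
    (hv (a + a / 2) (by positivity)) hb.le (h a ha (a / 2) hb)
  obtain ⟨C2, hC2⟩ := W_bdd hJ hne (hu _ hb) (hu a ha) (hu _ (by positivity)) (hv _ hb) (hv a ha)
    (hv (a / 2 + a) (by positivity)) ha.le (h (a / 2) hb a ha)
  have hcomm : a / 2 + a = a + a / 2 := by ring
  rw [hcomm] at hC2
  obtain ⟨C3, hC30, hC3⟩ := uc_incr hJ (hv a ha) (a / 2)
  obtain ⟨C4, hC40, hC4⟩ := uc_incr hJ (hv _ hb) a
  obtain ⟨C5, hC50, hC5⟩ := uc_incr hJ (hv a ha) (2 * Real.pi / a)
  -- the relation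
  have key : ∀ t ∈ J, ‖(v a t + ph a t • v (a / 2) t) - (v (a / 2) t + ph (a / 2) t • v a t)‖ ≤
      C1 + C2 + C3 + C4 := by
    intro t ht
    have e : (v a t + ph a t • v (a / 2) t) - (v (a / 2) t + ph (a / 2) t • v a t) =
        (v (a + a / 2) t - v (a / 2) t - ph (a / 2) t • v a (t + a / 2)) -
        (v (a + a / 2) t - v a t - ph a t • v (a / 2) (t + a)) +
        ph (a / 2) t • (v a (t + a / 2) - v a t) - ph a t • (v (a / 2) (t + a) - v (a / 2) t) := by
      simp only [smul_sub]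
      abel
    rw [e]
    refine (norm_sub_le _ _).trans (add_le_add ((norm_add_le _ _).trans (add_le_add
      ((norm_sub_le _ _).trans (add_le_add (hC1 t ht) (hC2 t ht))) ?_)) ?_)
    · rw [norm_smul, norm_ph, one_mul]; exact hC3 t ht _ hb.le le_rfl
    · rw [norm_smul, norm_ph, one_mul]; exact hC4 t ht _ ha.le le_rfl
  have hπ := Real.pi_pos
  have hπ3 := Real.pi_gt_three
  set z : ℂ := Complex.exp (((-(a ^ 2 / 4) : ℝ) : ℂ) * Complex.I) with hz
  have hz1 : z ≠ 1 := by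
    intro h1
    have h2 := congrArg Complex.re h1
    rw [hz, Complex.exp_ofReal_mul_I_re, Complex.one_re, Real.cos_neg] at h2
    have h3 := (Real.cos_eq_one_iff_of_lt_of_lt (x := a ^ 2 / 4) (by nlinarith) (by nlinarith)).1 h2
    have : 0 < a ^ 2 / 4 := by positivity
    linarith
  have hz0 : 0 < ‖1 - z‖ := norm_pos_iff.2 (sub_ne_zero.2 (Ne.symm hz1))
  refine ⟨(C1 + C2 + C3 + C4) / ‖1 - z‖ + C5, fun t ht => ?_⟩
  -- the point
  set j : ℤ := ⌈(2 * a * t + a ^ 2) / (4 * Real.pi)⌉ with hj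
  set τ : ℝ := (4 * Real.pi * j - a ^ 2) / (2 * a) with hτ
  have hj1 : (2 * a * t + a ^ 2) / (4 * Real.pi) ≤ j := Int.le_ceil _
  have hj2 : (j : ℝ) < (2 * a * t + a ^ 2) / (4 * Real.pi) + 1 := Int.ceil_lt_add_one _
  rw [div_le_iff₀ (by positivity)] at hj1
  have hj2' : (j : ℝ) * (4 * Real.pi) < 2 * a * t + a ^ 2 + 4 * Real.pi := by
    have := mul_lt_mul_of_pos_right hj2 (show 0 < 4 * Real.pi by positivity)
    rwa [add_mul, one_mul, div_mul_cancel₀ _ (by positivity)] at this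
  have hτa : 2 * a * τ = 4 * Real.pi * j - a ^ 2 := by rw [hτ]; field_simp
  have hτ1 : t ≤ τ := by
    have : 2 * a * t ≤ 2 * a * τ := by rw [hτa]; linarith
    exact le_of_mul_le_mul_left this (by positivity)
  have hτ2 : τ - t ≤ 2 * Real.pi / a := by
    rw [le_div_iff₀ ha]
    nlinarith
  have hτJ : τ ∈ J := hJ hτ1 ht
  have hph1 : ph a τ = 1 := by
    unfold ph
    have : a ^ 2 + 2 * τ * a = j * (2 * (2 * Real.pi)) := by linarith
    rw [this]
    have e2 : (((j : ℝ) * (2 * (2 * Real.pi)) : ℝ) : ℂ) * Complex.I =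
        ((2 * j : ℤ) : ℂ) * (2 * Real.pi * Complex.I) := by push_cast; ring
    rw [e2, Complex.exp_int_mul_two_pi_mul_I]
  have hph2 : ph (a / 2) τ = z := by
    unfold ph
    have : (a / 2) ^ 2 + 2 * τ * (a / 2) = j * (2 * Real.pi) + (-(a ^ 2 / 4)) := by linarith
    rw [this, hz]
    have e2 : (((j : ℝ) * (2 * Real.pi) + (-(a ^ 2 / 4)) : ℝ) : ℂ) * Complex.I =
        (j : ℂ) * (2 * Real.pi * Complex.I) + ((-(a ^ 2 / 4) : ℝ) : ℂ) * Complex.I := by
      push_cast; ring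
    rw [e2, Complex.exp_add, Complex.exp_int_mul_two_pi_mul_I, one_mul]
  have hk := key τ hτJ
  rw [hph1, hph2, one_smul] at hk
  have e3 : v a τ + v (a / 2) τ - (v (a / 2) τ + z • v a τ) = (1 - z) • v a τ := by
    rw [sub_smul, one_smul]; abel
  rw [e3, norm_smul] at hk
  have h4 : ‖v a τ‖ ≤ (C1 + C2 + C3 + C4) / ‖1 - z‖ := by
    rw [le_div_iff₀ hz0, mul_comm]; exact hk
  have h5 := hC5 t ht (τ - t) (by linarith) hτ2
  rw [add_sub_cancel] at h5
  have e6 : v a t = v a τ - (v a τ - v a t) := by abel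
  rw [e6]
  exact (norm_sub_le _ _).trans (add_le_add h4 h5)

lemma v_bdd {J : Set ℝ} (hJ : IsUpperSet J) (hne : J.Nonempty) {u v : ℝ → ℝ → X}
    (hu : ∀ a > 0, UniformContinuousOn (u a) J) (hv : ∀ a > 0, UniformContinuousOn (v a) J)
    (h : ∀ a > 0, ∀ b > 0, ∀ t ∈ J, u (a + b) t + ee 1 t • v (a + b) t =
      (u a (t + b) + ee 1 (t + b) • v a (t + b)) + (u b t + ee 1 t • v b t))
    {a : ℝ} (ha : 0 < a) : ∃ C : ℝ, ∀ t ∈ J, ‖v a t‖ ≤ C := by
  obtain ⟨n, hn⟩ := exists_nat_ge a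
  have hn0 : (0:ℝ) < n := ha.trans_le hn
  have ha0 : 0 < a / n := by positivity
  have ha1 : a / n ≤ 1 := by rw [div_le_one hn0]; exact hn
  obtain ⟨C0, hC0⟩ := v_bdd_small hJ hne hu hv h ha0 ha1
  have key : ∀ k : ℕ, ∃ C : ℝ, ∀ t ∈ J, ‖v ((k + 1 : ℕ) * (a / n)) t‖ ≤ C := by
    intro k
    induction k with
    | zero => exact ⟨C0, fun t ht => by simpa using hC0 t ht⟩
    | succ k ih =>
      obtain ⟨C, hC⟩ := ih
      have hk0 : 0 < ((k + 1 : ℕ) : ℝ) * (a / n) := by positivity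
      obtain ⟨C1, hC1⟩ := W_bdd hJ hne (hu _ hk0) (hu _ ha0) (hu _ (by positivity)) (hv _ hk0)
        (hv _ ha0) (hv (((k + 1 : ℕ) : ℝ) * (a / n) + a / n) (by positivity)) ha0.le
        (h _ hk0 _ ha0)
      refine ⟨C1 + C0 + C, fun t ht => ?_⟩
      have e1 : ((k + 1 + 1 : ℕ) : ℝ) * (a / n) = ((k + 1 : ℕ) : ℝ) * (a / n) + a / n := by
        push_cast; ring
      rw [e1]
      have e2 : v (((k + 1 : ℕ) : ℝ) * (a / n) + a / n) t =
          (v (((k + 1 : ℕ) : ℝ) * (a / n) + a / n) t - v (a / n) t -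
            ph (a / n) t • v (((k + 1 : ℕ) : ℝ) * (a / n)) (t + a / n)) + v (a / n) t +
            ph (a / n) t • v (((k + 1 : ℕ) : ℝ) * (a / n)) (t + a / n) := by abel
      rw [e2]
      refine (norm_add_le _ _).trans (add_le_add ((norm_add_le _ _).trans (add_le_add
        (hC1 t ht) (hC0 t ht))) ?_)
      rw [norm_smul, norm_ph, one_mul]
      exact hC _ (hJ (by linarith) ht)
  obtain ⟨m, rfl⟩ : ∃ m, n = m + 1 := ⟨n - 1, by
    have : 0 < n := by exact_mod_cast hn0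
    omega⟩
  obtain ⟨C, hC⟩ := key m
  refine ⟨C, fun t ht => ?_⟩
  have e : ((m + 1 : ℕ) : ℝ) * (a / ((m + 1 : ℕ) : ℝ)) = a := by field_simp
  rw [e] at hC
  exact hC t ht

end Pool.Agent.R361.Dif
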