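import Mathlib
import Pool.Agent.R361.Dif.UCsum

set_option autoImplicit false
open Set Filter MeasureTheory Topology
open scoped Pointwise ENNReal

namespace Pool.Agent.R361.Dif

section real

variable {X : Type*} [NormedAddCommGroup X] [NormedSpace ℝ X]

/-- `UC` satisfies `(Δ)` for continuous functions. -/
lemma uc_delta [CompleteSpace X] {J : Set ℝ} (hJ : IsUpperSet J) {F : ℝ → X} (hF : Continuous F)
    (hA : ∀ a > 0, UniformContinuousOn (Diff a F) J) {h : ℝ} (hh : 0 < h) :
    UniformContinuousOn (fun t => F t - Avg h F t) J := by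
  by_contra hcon
  rw [Metric.uniformContinuousOn_iff] at hcon
  push Not at hcon
  obtain ⟨ε, hε, hcon⟩ := hcon
  have hGG : ∀ t, F t - Avg h F t = -GG h F t := by
    intro t; rw [GG_eq hF hh]; abel
  have h1 : ∀ k : ℕ, ∃ x ∈ J, ∃ y ∈ J, x < y ∧
      y - x < 1 / ((k : ℝ) + 1) ∧ ε ≤ ‖GG h F y - GG h F x‖ := by
    intro k
    obtain ⟨x, hx, y, hy, hxy, he⟩ := hcon (1 / ((k : ℝ) + 1)) (by positivity)
    rw [hGG, hGG, dist_neg_neg] at he
    rcases lt_trichotomy x y with h | h | h
    · refine ⟨x, hx, y, hy, h, ?_, ?_⟩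
      · rw [dist_comm, Real.dist_eq, abs_of_pos (by linarith)] at hxy; exact hxy
      · rwa [dist_comm, dist_eq_norm] at he
    · rw [h] at he; simp at he; linarith
    · refine ⟨y, hy, x, hx, h, ?_, ?_⟩
      · rw [Real.dist_eq, abs_of_pos (by linarith)] at hxy; exact hxy
      · rwa [dist_eq_norm] at he
  choose x hx y hy hxy hd he using h1
  have hd1 : ∀ k, y k - x k ≤ 1 := by
    intro k
    refine (hd k).le.trans ?_
    rw [div_le_one (by positivity)]
    have : (0:ℝ) ≤ k := by positivity
    linarith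
  have hcont : ∀ s d : ℝ, Continuous (Diff s (Diff d F)) := by
    intro s d
    unfold Diff
    fun_prop
  obtain ⟨C, hC⟩ := UB (fun k : ℕ => Diff (y k - x k) F) hJ
    (fun k a _ b _ => by
      have : Continuous (Diff (y k - x k) F) := by unfold Diff; fun_prop
      exact this.continuousOn.integrableOn_Icc)
    (fun s _ k => (hcont s _).continuousOn)
    (fun s hs => by
      obtain ⟨C, _, hC⟩ := uc_incr hJ (hA s hs) 1
      refine ⟨C, fun k t ht => ?_⟩
      have e : Diff s (Diff (y k - x k) F) t = Diff s F (t + (y k - x k)) - Diff s F t := by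
        simp only [Diff]
        have : t + s + (y k - x k) = t + (y k - x k) + s := by ring
        rw [this]; abel
      rw [e]
      exact hC t ht _ (by linarith [hxy k]) (hd1 k)) h
  have hdist : Tendsto (fun k => dist (x k) (y k)) atTop (𝓝 0) := by
    refine squeeze_zero (fun k => dist_nonneg) (fun k => ?_) tendsto_one_div_add_atTop_nhds_zero_nat
    rw [dist_comm, Real.dist_eq, abs_of_pos (by linarith [hxy k])]
    exact (hd k).le
  have hI : Tendsto (fun k => ∫ s in Ioc (0:ℝ) h, (Diff s F (y k) - Diff s F (x k))) atTop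
      (𝓝 (∫ s in Ioc (0:ℝ) h, (0 : X))) := by
    refine tendsto_integral_of_dominated_convergence (fun _ => C) ?_ ?_ ?_ ?_
    · intro k
      have : Continuous (fun s => Diff s F (y k) - Diff s F (x k)) := by unfold Diff; fun_prop
      exact this.aestronglyMeasurable
    · exact integrable_const _
    · intro k
      refine (ae_restrict_iff' measurableSet_Ioc).2 (Eventually.of_forall fun s hs => ?_)
      have e : Diff s F (y k) - Diff s F (x k) = Diff s (Diff (y k - x k) F) (x k) := by
        simp only [Diff]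
        have e1 : x k + s + (y k - x k) = y k + s := by ring
        have e2 : x k + (y k - x k) = y k := by ring
        rw [e1, e2]; abel
      rw [e]
      exact hC s hs.1.le hs.2 k _ (hx k)
    · refine (ae_restrict_iff' measurableSet_Ioc).2 (Eventually.of_forall fun s hs => ?_)
      have h3 := hA s hs.1
      rw [Metric.uniformContinuousOn_iff] at h3
      rw [Metric.tendsto_atTop]
      intro η hη
      obtain ⟨δ, hδ, h4⟩ := h3 η hη
      obtain ⟨N, hN⟩ := (Metric.tendsto_atTop.1 hdist) δ hδ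
      refine ⟨N, fun k hk => ?_⟩
      have h5 := hN k hk
      rw [Real.dist_eq, sub_zero, abs_of_nonneg dist_nonneg] at h5
      have h6 := h4 _ (hx k) _ (hy k) h5
      rw [dist_zero_right, ← dist_eq_norm, dist_comm]
      exact h6
  simp only [integral_zero] at hI
  have hval : ∀ k, ‖GG h F (y k) - GG h F (x k)‖ =
      h⁻¹ * ‖∫ s in Ioc (0:ℝ) h, (Diff s F (y k) - Diff s F (x k))‖ := by
    intro k
    have c : ∀ t, IntervalIntegrable (fun s => Diff s F t) volume 0 h := fun t => by
      have : Continuous (fun s => Diff s F t) := by unfold Diff; fun_prop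
      exact this.intervalIntegrable _ _
    unfold GG
    rw [← smul_sub, ← intervalIntegral.integral_sub (c _) (c _), norm_smul, norm_inv,
      Real.norm_eq_abs, abs_of_pos hh, intervalIntegral.integral_of_le hh.le]
  have hlim : Tendsto (fun k => ‖GG h F (y k) - GG h F (x k)‖) atTop (𝓝 0) := by
    have := (hI.norm).const_mul h⁻¹
    simp only [norm_zero, mul_zero] at this
    simpa only [hval] using this
  have := ge_of_tendsto' hlim he
  linarith

/-- averages preserve uniform continuity -/
lemma uc_avg {J : Set ℝ} (hJ : IsUpperSet J) {u : ℝ → X} (hu : Continuous u)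
    (hU : UniformContinuousOn u J) {h : ℝ} (hh : 0 < h) : UniformContinuousOn (Avg h u) J := by
  rw [Metric.uniformContinuousOn_iff] at hU ⊢
  intro ε hε
  obtain ⟨δ, hδ, H⟩ := hU (ε / 2) (by positivity)
  refine ⟨δ, hδ, fun t ht t' ht' htt => ?_⟩
  have e : ∀ t, Avg h u t = h⁻¹ • ∫ s in (0:ℝ)..h, u (t + s) := by
    intro t
    unfold Avg
    rw [intervalIntegral.integral_comp_add_left (fun s => u s), add_zero]
  have c : ∀ t, IntervalIntegrable (fun s => u (t + s)) volume 0 h := fun t => by
    have : Continuous (fun s => u (t + s)) := by fun_prop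
    exact this.intervalIntegrable _ _
  rw [dist_eq_norm, e, e, ← smul_sub, ← intervalIntegral.integral_sub (c _) (c _), norm_smul,
    norm_inv, Real.norm_eq_abs, abs_of_pos hh]
  have h1 : ‖∫ s in (0:ℝ)..h, (u (t + s) - u (t' + s))‖ ≤ (ε / 2) * |h - 0| := by
    apply intervalIntegral.norm_integral_le_of_norm_le_const
    intro s hs
    rw [uIoc_of_le hh.le] at hs
    rw [← dist_eq_norm]
    refine (H _ (hJ (by linarith [hs.1]) ht) _ (hJ (by linarith [hs.1]) ht') ?_).le
    rw [Real.dist_eq] at htt ⊢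
    rwa [add_sub_add_right_eq_sub]
  rw [sub_zero, abs_of_pos hh] at h1
  calc _ ≤ h⁻¹ * ((ε / 2) * h) := mul_le_mul_of_nonneg_left h1 (by positivity)
    _ = ε / 2 := by field_simp
    _ < ε := by linarith

lemma avg_close_bdd [CompleteSpace X] {J : Set ℝ} (hJ : IsUpperSet J) {u : ℝ → X}
    (hu : Continuous u) (hU : UniformContinuousOn u J) {h : ℝ} (hh : 0 < h) :
    ∃ C, ∀ t ∈ J, ‖u t - Avg h u t‖ ≤ C := by
  obtain ⟨C, _, hC⟩ := uc_incr hJ hU h
  refine ⟨C, fun t ht => ?_⟩
  have e : u t - Avg h u t = Avg h (fun s => u t - u s) t := by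
    rw [avg_sub continuous_const hu, avg_const hh]
  rw [e]
  apply norm_avg_le hh
  intro s hs
  rw [norm_sub_rev]
  have := hC t ht (s - t) (by linarith [hs.1]) (by linarith [hs.2])
  rwa [add_sub_cancel] at this

lemma avg_comm {u : ℝ → X} (hu : Continuous u) {h k : ℝ} (hh : 0 < h) (hk : 0 < k) (t : ℝ) :
    Avg k (Avg h u) t = Avg h (Avg k u) t := by
  have e : ∀ (w : ℝ → X) (h t : ℝ), Avg h w t = h⁻¹ • ∫ s in (0:ℝ)..h, w (t + s) := by
    intro w h t
    unfold Avg
    rw [intervalIntegral.integral_comp_add_left (fun s => w s), add_zero]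
  rw [e (Avg h u) k t, e (Avg k u) h t]
  simp only [e u h, e u k]
  rw [intervalIntegral.integral_smul, intervalIntegral.integral_smul, smul_comm]
  have s1 := swap_int (F := fun r s => u (t + r + s)) (by
    simp only [Function.uncurry_def]; fun_prop) hk.le hh.le
  rw [s1]
  congr 2
  apply intervalIntegral.integral_congr
  intro s _
  simp only
  congr 1
  funext r
  congr 1
  ring

lemma avg_diff {u : ℝ → X} (hu : Continuous u) (h a t : ℝ) :
    Avg h (Diff a u) t = Avg h u (t + a) - Avg h u t := by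
  unfold Avg Diff
  have c : Continuous (fun s => u (s + a)) := by fun_prop
  rw [intervalIntegral.integral_sub (c.intervalIntegrable _ _) (hu.intervalIntegrable _ _),
    intervalIntegral.integral_comp_add_right (fun s => u s), smul_sub]
  have : t + h + a = t + a + h := by ring
  rw [this]

end real

section complex

variable {X : Type*} [NormedAddCommGroup X] [NormedSpace ℂ X]

/-- `F` is of the form `u + e^{i t²} v` on `J` with `u`, `v` uniformly continuous on `J` -/
def InUCsum (J : Set ℝ) (F : ℝ → X) : Prop :=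
  ∃ u v : ℝ → X, UniformContinuousOn u J ∧ UniformContinuousOn v J ∧
    ∀ t ∈ J, F t = u t + Complex.exp (Complex.I * (t : ℂ) ^ 2) • v t

lemma ee_one (t : ℝ) : ee 1 t = Complex.exp (Complex.I * (t : ℂ) ^ 2) := by
  unfold ee
  congr 1
  push_cast; ring

lemma osc_ee [CompleteSpace X] {J : Set ℝ} (hJ : IsUpperSet J) : Osc X J (ee 1) (ee (-1)) where
  c1 := continuous_ee _
  c2 := continuous_ee _
  b1 := ⟨1, zero_le_one, fun t => (norm_ee _ _).le⟩
  b2 := ⟨1, zero_le_one, fun t => (norm_ee _ _).le⟩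
  h1 := fun d hd v hv hv' ε hε => far_osc hJ (continuous_ee _) zero_le_one
      (fun t => (norm_ee _ _).le) (prim_ee one_ne_zero) hv hv' hd hε
  h2 := fun d hd v hv hv' ε hε => far_osc hJ (continuous_ee _) zero_le_one
      (fun t => (norm_ee _ _).le) (prim_ee (by norm_num)) hv hv' hd hε
  h3 := fun d hd v hv hv' ε hε => by
    have e : (fun s : ℝ => (ee (-1) s * ee 1 s - 1) • v s) = fun _ => 0 := by
      funext s
      have : ee (-1) s * ee 1 s = 1 := by
        unfold ee
        rw [← Complex.exp_add, ← Complex.exp_zero]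
        congr 1
        push_cast; ring
      rw [this, sub_self, zero_smul]
    rw [e]
    refine ⟨0, fun t _ _ => ?_⟩
    unfold Avg
    simp only [intervalIntegral.integral_zero, smul_zero, norm_zero]
    exact hε.le

omit [NormedSpace ℂ X] in
lemma uc_exists_cont [CompleteSpace X] {J : Set ℝ} (hJ : IsUpperSet J) (hne : J.Nonempty)
    {u : ℝ → X} (h : UniformContinuousOn u J) :
    ∃ v : ℝ → X, Continuous v ∧ UniformContinuousOn v J ∧ EqOn v u J := by
  obtain ⟨v, hv, he⟩ := exists_ext hJ hne (fun R => h.mono inter_subset_left)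
  exact ⟨v, hv, h.congr (fun t ht => (he ht).symm), he⟩

/-- `UC + e^{it²} UC` satisfies `(Δ)`. -/
theorem main_UC [CompleteSpace X] {J : Set ℝ} (hJ : IsUpperSet J) (hne : J.Nonempty) {f : ℝ → X}
    (hL : L1loc J f) (hA : ∀ a > 0, InUCsum J (Diff a f)) {h : ℝ} (hh : 0 < h) :
    InUCsum J (fun t => f t - Avg h f t) := by
  -- continuous representatives of the data
  have hA1 : ∀ a : ℝ, ∃ u v : ℝ → X, a > 0 → (Continuous u ∧ Continuous v ∧
      UniformContinuousOn u J ∧ UniformContinuousOn v J ∧
      ∀ t ∈ J, Diff a f t = u t + ee 1 t • v t) := by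
    intro a
    by_cases ha : a > 0
    · obtain ⟨u, v, hu, hv, he⟩ := hA a ha
      obtain ⟨u', cu, uu, eu⟩ := uc_exists_cont hJ hne hu
      obtain ⟨v', cv, uv, ev⟩ := uc_exists_cont hJ hne hv
      exact ⟨u', v', fun _ => ⟨cu, cv, uu, uv, fun t ht => by
        rw [he t ht, eu ht, ev ht, ee_one]⟩⟩
    · exact ⟨0, 0, fun h => absurd h ha⟩
  choose u v huv using hA1
  have cu := fun a ha => (huv a ha).1
  have cv := fun a ha => (huv a ha).2.1
  have hu := fun a ha => (huv a ha).2.2.1
  have hv := fun a ha => (huv a ha).2.2.2.1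
  have he := fun a ha => (huv a ha).2.2.2.2
  have hcoc : ∀ a > 0, ∀ b > 0, ∀ t ∈ J, u (a + b) t + ee 1 t • v (a + b) t =
      (u a (t + b) + ee 1 (t + b) • v a (t + b)) + (u b t + ee 1 t • v b t) := by
    intro a ha b hb t ht
    rw [← he (a + b) (by positivity) t ht, ← he a ha (t + b) (hJ (by linarith) ht), ← he b hb t ht]
    simp only [Diff]
    have : t + b + a = t + (a + b) := by ring
    rw [this]; abel
  have hvb : ∀ a > 0, ∃ C : ℝ, ∀ t ∈ J, ‖v a t‖ ≤ C := fun a ha => v_bdd hJ hne hu hv hcoc ha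
  -- continuity of `f`
  have hcc : ∀ s > 0, Continuous (fun t => u s t + ee 1 t • v s t) := by
    intro s hs
    have h1 := cu s hs
    have h2 := cv s hs
    have h3 := continuous_ee 1
    fun_prop
  have hbR : ∀ s > 0, ∀ R : ℝ, ∃ C : ℝ, ∀ t ∈ J, |t| ≤ R → ‖Diff s f t‖ ≤ C := by
    intro s hs R
    obtain ⟨C, hC⟩ := (isCompact_Icc (a := -R) (b := R)).exists_bound_of_continuousOn
      (hcc s hs).continuousOn
    exact ⟨C, fun t ht htR => by rw [he s hs t ht]; exact hC t (abs_le.1 htR)⟩
  have hbl := fun h R => UBloc f hJ hL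
    (fun s hs => (hcc s hs).continuousOn.congr (fun t ht => he s hs t ht)) hbR h R
  have huR : ∀ a > 0, ∀ R, UniformContinuousOn (Diff a f) (J ∩ Icc (-R) R) := by
    intro a ha R
    have h1 : UniformContinuousOn (fun t => u a t + ee 1 t • v a t) (Icc (-R) R) :=
      isCompact_Icc.uniformContinuousOn_of_continuous (hcc a ha).continuousOn
    exact (h1.mono inter_subset_right).congr (fun t ht => (he a ha t ht.1).symm)
  obtain ⟨F, hF, hFf⟩ := exists_ext hJ hne (uc_of_diff hJ hne hL hbl huR)
  have hDF : ∀ a > 0, ∀ t ∈ J, Diff a F t = u a t + ee 1 t • v a t := by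
    intro a ha t ht
    rw [← he a ha t ht]
    simp only [Diff]
    rw [hFf ht, hFf (hJ (by linarith) ht)]
  have cgv : ∀ a > 0, Continuous (fun t => ee 1 t • v a t) := fun a ha => by
    have h2 := cv a ha
    have h3 := continuous_ee 1
    fun_prop
  have hgvb : ∀ a > 0, ∀ k > 0, BUC J (Avg k (fun t => ee 1 t • v a t)) := by
    intro a ha k hk
    obtain ⟨C, hC⟩ := hvb a ha
    refine BUC_avg hJ (cgv a ha) (abs_nonneg C) (fun t ht => ?_) hk
    rw [norm_smul, norm_ee, one_mul]
    exact (hC t ht).trans (le_abs_self C)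
  have hAvg : ∀ a > 0, ∀ k > 0, ∀ t ∈ J, Avg k F (t + a) - Avg k F t =
      Avg k (u a) t + Avg k (fun t => ee 1 t • v a t) t := by
    intro a ha k hk t ht
    rw [← avg_diff hF, ← avg_add (cu a ha) (cgv a ha)]
    exact avg_congr hJ (fun r hr => hDF a ha r hr) hk ht
  -- `f₂ = F - M_h F`
  let f2 : ℝ → X := fun t => F t - Avg h F t
  have cf2 : Continuous f2 := hF.sub (continuous_avg hF h)
  have hf2 : ∀ a > 0, InSum J (ee 1) (Diff a f2) := by
    intro a ha
    refine ⟨fun t => (u a t - Avg h (u a) t) - Avg h (fun t => ee 1 t • v a t) t, v a, ?_,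
      ⟨hv a ha, hvb a ha⟩, fun t ht => ?_⟩
    · refine BUC.sub ⟨uc_sub (hu a ha) (uc_avg hJ (cu a ha) (hu a ha) hh), ?_⟩ (hgvb a ha h hh)
      exact avg_close_bdd hJ (cu a ha) (hu a ha) hh
    · have h1 := hAvg a ha h hh t ht
      have h2 := hDF a ha t ht
      have h3 : Diff a f2 t = Diff a F t - (Avg h F (t + a) - Avg h F t) := by
        simp only [Diff, f2]; abel
      have h4 : Diff a f2 t = (u a t - Avg h (u a) t - Avg h (fun t => ee 1 t • v a t) t) +
          ee 1 t • v a t := by
        rw [h3, h1, h2]; abel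
      exact h4
  obtain ⟨p, r, hp, hr, hpr⟩ := thmB (𝕜 := ℂ) hJ hne (osc_ee hJ) (f := f2)
    (fun a _ b _ => cf2.continuousOn.integrableOn_Icc) hf2 one_pos
  -- `M_1 f₂` is uniformly continuous
  have hG : UniformContinuousOn (fun t => Avg 1 F t - Avg h (Avg 1 F) t) J := by
    refine uc_delta hJ (continuous_avg hF 1) (fun a ha => ?_) hh
    have h1 : UniformContinuousOn (fun t => Avg 1 (u a) t + Avg 1 (fun t => ee 1 t • v a t) t) J :=
      uc_add (uc_avg hJ (cu a ha) (hu a ha) one_pos) (hgvb a ha 1 one_pos).1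
    exact h1.congr (fun t ht => (hAvg a ha 1 one_pos t ht).symm)
  refine ⟨fun t => p t + (Avg 1 F t - Avg h (Avg 1 F) t), r, uc_add hp.1 hG, hr.1, fun t ht => ?_⟩
  have h1 := hpr t ht
  have h2 : Avg 1 f2 t = Avg 1 F t - Avg h (Avg 1 F) t := by
    simp only [f2]
    rw [avg_sub hF (continuous_avg hF h), avg_comm hF hh one_pos]
  simp only at h1
  rw [← ee_one]
  have h3 : f t - Avg h f t = f2 t := by
    simp only [f2]
    rw [avg_congr hJ hFf hh ht, hFf ht]
  simp only
  rw [h3, ← h2]
  have h4 : f2 t = (f2 t - Avg 1 f2 t) + Avg 1 f2 t := by abel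
  rw [h4, h1]; abel

end complex

end Pool.Agent.R361.Dif
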